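import Mathlib

namespace Pool.Agent.P.MP_fc75c6_al

/-- `G` is `m`-semi-rational: every generator `y` of a cyclic subgroup generated by `x` is
conjugate to `x` or to `x ^ m`. -/
def IsMSemiRational (G : Type) [Group G] (m : ℤ) : Prop :=
  ∀ x y : G, Subgroup.zpowers y = Subgroup.zpowers x → IsConj x y ∨ IsConj (x ^ m) y

/-- The field generated over the rationals by all values of all complex irreducible characters. -/
noncomputable def charField (G : Type) [Group G] : IntermediateField ℚ ℂ :=
  IntermediateField.adjoin ℚ
    {z : ℂ | ∃ V : FDRep ℂ G, CategoryTheory.Simple V ∧ ∃ x : G, z = V.character x}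

end Pool.Agent.P.MP_fc75c6_al
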