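import Pool.Agent.P.MP_fc75c6_al.Defs

namespace Pool.Agent.P.MP_fc75c6_al

open Equiv Equiv.Perm

/-- The sign character of the dihedral group of order 8 with kernel the cyclic group of order 4. -/
def eps : DihedralGroup 4 →* ℤˣ where
  toFun
    | DihedralGroup.r _ => 1
    | DihedralGroup.sr _ => -1
  map_one' := rfl
  map_mul' := by decide

section Perm

variable {α : Type} [Fintype α] [DecidableEq α]

lemma cycleType_pow_coprime (σ : Perm α) (j : ℕ) :
    j.Coprime (orderOf σ) → (σ ^ j).cycleType = σ.cycleType := by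
  induction σ using cycle_induction_on with
  | base_one => simp
  | base_cycles σ hσ =>
    intro h
    rw [(hσ.pow_iff.2 h).cycleType, hσ.cycleType, support_pow_coprime h]
  | induction_disjoint σ τ hd _ ih1 ih2 =>
    intro h
    rw [hd.orderOf] at h
    rw [hd.commute.mul_pow, (hd.pow_disjoint_pow j j).cycleType_mul, hd.cycleType_mul,
      ih1 (h.coprime_dvd_right (Nat.dvd_lcm_left _ _)),
      ih2 (h.coprime_dvd_right (Nat.dvd_lcm_right _ _))]

lemma odd_orderOf_of_centralizer (σ : Perm α) (h : ∀ c : Perm α, Commute c σ → sign c = 1) :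
    ¬ 2 ∣ orderOf σ := by
  rw [← lcm_cycleType]
  intro h2
  have : ∃ n ∈ σ.cycleType, 2 ∣ n := by
    by_contra hne
    push Not at hne
    have : ∀ s : Multiset ℕ, (∀ n ∈ s, ¬ 2 ∣ n) → ¬ 2 ∣ s.lcm := by
      intro s
      induction s using Multiset.induction_on with
      | empty => simp
      | cons a s ih =>
        intro hs h3
        rw [Multiset.lcm_cons] at h3
        rcases (Nat.Prime.dvd_lcm Nat.prime_two).1 h3 with h4 | h4
        · exact hs a (Multiset.mem_cons_self _ _) h4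
        · exact ih (fun n hn => hs n (Multiset.mem_cons_of_mem hn)) h4
    exact this _ hne h2
  obtain ⟨n, hn, h2n⟩ := this
  rw [cycleType_def, Multiset.mem_map] at hn
  obtain ⟨c, hc, rfl⟩ := hn
  have hc' : c ∈ σ.cycleFactorsFinset := hc
  have h1 := h c (self_mem_cycle_factors_commute hc')
  rw [(mem_cycleFactorsFinset_iff.1 hc').1.sign] at h1
  obtain ⟨t, ht⟩ := h2n
  simp only [Function.comp] at ht
  rw [ht, pow_mul] at h1
  simp at h1

/-- The fibre product of the symmetric group and the dihedral group of order 8. -/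
def GG (α : Type) [Fintype α] [DecidableEq α] : Subgroup (Perm α × DihedralGroup 4) :=
  MonoidHom.eqLocus (sign.comp (MonoidHom.fst _ _)) (eps.comp (MonoidHom.snd _ _))

lemma mem_GG (p : Perm α × DihedralGroup 4) : p ∈ GG α ↔ sign p.1 = eps p.2 := Iff.rfl

lemma isConj_GG_iff (x y : GG α) : IsConj x y ↔
    ∃ c k, sign c = eps k ∧ c * x.1.1 * c⁻¹ = y.1.1 ∧ k * x.1.2 * k⁻¹ = y.1.2 := by
  rw [isConj_iff]
  constructor
  · rintro ⟨c, rfl⟩
    exact ⟨c.1.1, c.1.2, c.2, rfl, rfl⟩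
  · rintro ⟨c, k, h1, h2, h3⟩
    exact ⟨⟨(c, k), h1⟩, Subtype.ext (Prod.ext h2 h3)⟩

lemma dih_pow_four (h : DihedralGroup 4) : h ^ 4 = 1 := by revert h; decide

lemma dih_pow_mod (h : DihedralGroup 4) (n : ℕ) : h ^ n = h ^ (n % 4) :=
  pow_eq_pow_mod n (dih_pow_four h)

lemma dih_conj (h : DihedralGroup 4) (i j : ℕ) (hij : (h ^ j) ^ i = h) :
    ∃ k, k * h * k⁻¹ = h ^ j := by
  have key : ∀ (h : DihedralGroup 4) (a b : Fin 4), (h ^ a.val) ^ b.val = h →
      ∃ k, k * h * k⁻¹ = h ^ a.val := by decide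
  rw [dih_pow_mod h j, dih_pow_mod _ i] at hij
  rw [dih_pow_mod h j]
  exact key h ⟨j % 4, Nat.mod_lt _ (by norm_num)⟩ ⟨i % 4, Nat.mod_lt _ (by norm_num)⟩ hij

lemma dih_split (h : DihedralGroup 4) (hh : ∀ k, k * h = h * k → 1 = eps k) :
    DihedralGroup.sr 0 * h * (DihedralGroup.sr 0)⁻¹ = h ^ 3 := by
  revert h; decide

theorem GG_semi (L : ℕ) (hL : ¬ 2 ∣ L)
    (hL' : ∀ σ : Perm α, ¬ 2 ∣ orderOf σ → orderOf σ ∣ L) :
    IsMSemiRational (GG α) ((1 + 2 * L : ℕ) : ℤ) := by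
  intro x y hxy
  have hy : y ∈ Submonoid.powers x := by
    rw [mem_powers_iff_mem_zpowers, ← hxy]; exact Subgroup.mem_zpowers y
  have hx : x ∈ Submonoid.powers y := by
    rw [mem_powers_iff_mem_zpowers, hxy]; exact Subgroup.mem_zpowers x
  obtain ⟨j, rfl⟩ := hy
  obtain ⟨i, hi⟩ := hx
  simp only at hi hxy ⊢
  have hcop : j.Coprime (orderOf x) := by
    have : x ∈ Subgroup.zpowers (x ^ j) := by rw [hxy]; exact Subgroup.mem_zpowers x
    exact mem_zpowers_pow_iff.1 this
  have hdvd : orderOf x.1.1 ∣ orderOf x := by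
    apply orderOf_dvd_of_pow_eq_one
    exact congrArg (fun z : GG α => z.1.1) (pow_orderOf_eq_one x)
  obtain ⟨c, hc⟩ := isConj_iff.1 (isConj_of_cycleType_eq
    (cycleType_pow_coprime x.1.1 j (hcop.coprime_dvd_right hdvd)).symm)
  obtain ⟨k, hk⟩ := dih_conj x.1.2 i j (by simpa using congrArg (fun z : GG α => z.1.2) hi)
  by_cases hs : sign c = eps k
  · left
    exact (isConj_GG_iff _ _).2 ⟨c, k, hs, by simpa using hc, by simpa using hk⟩
  have hs' : sign c = - eps k := Int.units_ne_iff_eq_neg.1 hs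
  by_cases hcen : ∃ c' k', Commute c' x.1.1 ∧ k' * x.1.2 = x.1.2 * k' ∧ sign c' ≠ eps k'
  · left
    obtain ⟨c', k', h1, h2, h3⟩ := hcen
    refine (isConj_GG_iff _ _).2 ⟨c * c', k * k', ?_, ?_, ?_⟩
    · rw [map_mul, map_mul, hs', Int.units_ne_iff_eq_neg.1 h3]; simp
    · have : c * c' * x.1.1 * (c * c')⁻¹ = c * x.1.1 * c⁻¹ := by
        rw [mul_assoc c c', h1.eq]; group
      rw [this]; simpa using hc
    · have : k * k' * x.1.2 * (k * k')⁻¹ = k * x.1.2 * k⁻¹ := by
        rw [mul_assoc k k', h2]; group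
      rw [this]; simpa using hk
  right
  push Not at hcen
  have hodd := odd_orderOf_of_centralizer x.1.1 fun c' hc' => by
    simpa using hcen c' 1 hc' (by simp)
  have hh := dih_split x.1.2 fun k' hk' => by
    simpa using hcen 1 k' (Commute.one_left _) hk'
  have e1 : x.1.1 ^ (1 + 2 * L) = x.1.1 := by
    obtain ⟨t, ht⟩ := hL' _ hodd
    rw [ht, pow_add, pow_one, mul_left_comm, pow_mul, pow_orderOf_eq_one, one_pow, mul_one]
  have e2 : x.1.2 ^ (1 + 2 * L) = x.1.2 ^ 3 := by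
    rw [dih_pow_mod]
    congr 1
    omega
  rw [zpow_natCast]
  refine (isConj_GG_iff _ _).2 ⟨c, k * (DihedralGroup.sr 0)⁻¹, ?_, ?_, ?_⟩
  · rw [hs', map_mul, map_inv]
    have : eps (DihedralGroup.sr 0) = -1 := rfl
    rw [this]; simp
  · simp only [SubmonoidClass.coe_pow, Prod.pow_fst]
    rw [e1, hc]
  · simp only [SubmonoidClass.coe_pow, Prod.pow_snd]
    rw [e2, ← hh, ← hk]; group

end Perm

section TwoCycle

variable (h k : ℕ) [NeZero h] [NeZero k]

/-- A permutation with two cycles of lengths `h` and `k`. -/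
def g0 : Perm (ZMod h ⊕ ZMod k) := Equiv.sumCongr (Equiv.addRight 1) (Equiv.addRight 1)

lemma g0_pow_inl (t : ℕ) (a : ZMod h) : (g0 h k ^ t) (Sum.inl a) = Sum.inl (a + t) := by
  induction t with
  | zero => simp
  | succ t ih => rw [pow_succ', Perm.mul_apply, ih]; simp [g0, add_assoc]

lemma g0_pow_inr (t : ℕ) (a : ZMod k) : (g0 h k ^ t) (Sum.inr a) = Sum.inr (a + t) := by
  induction t with
  | zero => simp
  | succ t ih => rw [pow_succ', Perm.mul_apply, ih]; simp [g0, add_assoc]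

lemma g0_pow_eq_one : g0 h k ^ (h * k) = 1 := by
  ext (a | a)
  · rw [g0_pow_inl]; simp
  · rw [g0_pow_inr]; simp

lemma sign_g0 (hh : Odd h) (hk : Odd k) : sign (g0 h k) = 1 := by
  have := congrArg sign (g0_pow_eq_one h k)
  rw [map_pow, map_one] at this
  rcases Int.units_eq_one_or (sign (g0 h k)) with h1 | h1
  · exact h1
  · rw [h1, (hh.mul hk).neg_one_pow] at this
    exact absurd this (by decide)

lemma centralizer_g0 (h1 : 1 < h) (k1 : 1 < k) (hc : h.Coprime k) (d : Perm (ZMod h ⊕ ZMod k))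
    (hd : Commute d (g0 h k)) : ∃ t : ℕ, d = g0 h k ^ t := by
  have hcomm : ∀ (t : ℕ) z, d ((g0 h k ^ t) z) = (g0 h k ^ t) (d z) := by
    intro t z
    have := (hd.pow_right t).eq
    exact congrArg (fun e : Perm _ => e z) this
  obtain ⟨a, ha⟩ : ∃ a, d (Sum.inl 0) = Sum.inl a := by
    rcases hz : d (Sum.inl 0) with a | b
    · exact ⟨a, rfl⟩
    · exfalso
      have := hcomm h (Sum.inl 0)
      rw [g0_pow_inl, ZMod.natCast_self, add_zero, hz, g0_pow_inr] at this
      have h2 : (h : ZMod k) = 0 := by simpa using this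
      rw [ZMod.natCast_eq_zero_iff] at h2
      have := Nat.Coprime.eq_one_of_dvd hc.symm h2
      omega
  obtain ⟨b, hb⟩ : ∃ b, d (Sum.inr 0) = Sum.inr b := by
    rcases hz : d (Sum.inr 0) with a | b
    · exfalso
      have := hcomm k (Sum.inr 0)
      rw [g0_pow_inr, ZMod.natCast_self, add_zero, hz, g0_pow_inl] at this
      have h2 : (k : ZMod h) = 0 := by simpa using this
      rw [ZMod.natCast_eq_zero_iff] at h2
      have := Nat.Coprime.eq_one_of_dvd hc h2
      omega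
    · exact ⟨b, rfl⟩
  obtain ⟨t, ht1, ht2⟩ := Nat.chineseRemainder hc a.val b.val
  have e1 : (t : ZMod h) = a := by
    rw [(ZMod.natCast_eq_natCast_iff _ _ _).2 ht1, ZMod.natCast_zmod_val]
  have e2 : (t : ZMod k) = b := by
    rw [(ZMod.natCast_eq_natCast_iff _ _ _).2 ht2, ZMod.natCast_zmod_val]
  refine ⟨t, ?_⟩
  ext (u | u)
  · have := hcomm u.val (Sum.inl 0)
    rw [g0_pow_inl, ha, g0_pow_inl] at this
    rw [g0_pow_inl, e1]
    simpa [add_comm] using this
  · have := hcomm u.val (Sum.inr 0)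
    rw [g0_pow_inr, hb, g0_pow_inr] at this
    rw [g0_pow_inr, e2]
    simpa [add_comm] using this

lemma sign_neg_zmod (h3 : h % 4 = 3) : sign (Equiv.neg (ZMod h) : Perm (ZMod h)) = -1 := by
  rw [sign_of_pow_two_eq_one (by ext a; simp [pow_two])]
  have hcard : Fintype.card (Function.fixedPoints (Equiv.neg (ZMod h) : Perm (ZMod h))) = 1 := by
    rw [Fintype.card_eq_one_iff]
    refine ⟨⟨0, by simp [Function.mem_fixedPoints, Function.IsFixedPt]⟩, ?_⟩
    rintro ⟨a, ha⟩
    apply Subtype.ext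
    have ha' : -a = a := ha
    have hu : IsUnit ((2 : ℕ) : ZMod h) := by
      rw [ZMod.isUnit_iff_coprime]
      apply Nat.coprime_two_left.2
      exact Nat.odd_iff.2 (by omega)
    have : ((2 : ℕ) : ZMod h) * a = 0 := by
      push_cast
      linear_combination -ha'
    exact (hu.mul_right_eq_zero).1 this
  rw [hcard, ZMod.card]
  apply Odd.neg_one_pow
  exact Nat.odd_iff.2 (by omega)

lemma sign_conj_g0 (h3 : h % 4 = 3) (hk : Odd k) (k1 : 1 < k) (hc : h.Coprime k) (j : ℕ)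
    (hj1 : (j : ZMod h) = -1) (hj2 : (j : ZMod k) = 1) (c : Perm (ZMod h ⊕ ZMod k))
    (hcj : c * g0 h k * c⁻¹ = g0 h k ^ j) : sign c = -1 := by
  let c0 : Perm (ZMod h ⊕ ZMod k) := Equiv.sumCongr (Equiv.neg _) 1
  have hc0 : c0 * g0 h k * c0⁻¹ = g0 h k ^ j := by
    rw [mul_inv_eq_iff_eq_mul]
    ext (u | u)
    · simp only [Perm.mul_apply]
      have : c0 (Sum.inl u) = Sum.inl (-u) := rfl
      rw [this, g0_pow_inl, hj1]
      simp [c0, g0, add_comm]
    · simp only [Perm.mul_apply]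
      have : c0 (Sum.inr u) = Sum.inr u := rfl
      rw [this, g0_pow_inr, hj2]
      simp [c0, g0]
  have hs0 : sign c0 = -1 := by
    simp only [c0]
    rw [sign_sumCongr, sign_neg_zmod h h3]; simp
  have hd : Commute (c0⁻¹ * c) (g0 h k) := by
    rw [← hc0] at hcj
    unfold Commute SemiconjBy
    calc c0⁻¹ * c * g0 h k = c0⁻¹ * (c * g0 h k * c⁻¹) * c := by group
      _ = g0 h k * (c0⁻¹ * c) := by rw [hcj]; group
  obtain ⟨t, ht⟩ := centralizer_g0 h k (by omega) k1 hc _ hd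
  have := congrArg sign ht
  rw [map_mul, map_inv, map_pow, sign_g0 h k (Nat.odd_iff.2 (by omega)) hk, hs0] at this
  rcases Int.units_eq_one_or (sign c) with h1 | h1
  · rw [h1] at this; simp at this
  · exact h1

theorem exists_two_cycle {α : Type} [Fintype α] [DecidableEq α] (hcard : Fintype.card α = h + k)
    (h3 : h % 4 = 3) (hk : Odd k) (k1 : 1 < k) (hc : h.Coprime k) :
    ∃ g : Perm α, sign g = 1 ∧ g ^ (h * k) = 1 ∧ ∀ j : ℕ, (j : ZMod h) = -1 → (j : ZMod k) = 1 →
      ∀ c : Perm α, c * g * c⁻¹ = g ^ j → sign c = -1 := by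
  let e : (ZMod h ⊕ ZMod k) ≃ α := Fintype.equivOfCardEq (by simp [hcard])
  let Φ : Perm (ZMod h ⊕ ZMod k) ≃* Perm α := e.permCongrHom
  have hΦ : ∀ p, sign (Φ p) = sign p := fun p => sign_permCongr e p
  refine ⟨Φ (g0 h k), ?_, ?_, ?_⟩
  · rw [hΦ, sign_g0 h k (Nat.odd_iff.2 (by omega)) hk]
  · rw [← map_pow, g0_pow_eq_one, map_one]
  · intro j hj1 hj2 c hcj
    obtain ⟨c', rfl⟩ := Φ.surjective c
    rw [hΦ]
    apply sign_conj_g0 h k h3 hk k1 hc j hj1 hj2
    apply Φ.injective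
    simpa using hcj

end TwoCycle

end Pool.Agent.P.MP_fc75c6_al
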