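import Pool.Agent.P.MP_fc75c6_al.Rep
import Pool.Agent.P.MP_fc75c6_al.Grp

namespace Pool.Agent.P.MP_fc75c6_al

open Equiv Equiv.Perm

lemma exists_lift (M N x : ℕ) (hN : 0 < N) (hM : 0 < M) (hx : x.Coprime M) :
    ∃ j : ℕ, j.Coprime N ∧ j ≡ x [MOD M] := by
  haveI : NeZero (M * N) := ⟨(Nat.mul_pos hM hN).ne'⟩
  haveI : NeZero M := ⟨hM.ne'⟩
  obtain ⟨u, hu⟩ := ZMod.unitsMap_surjective (Nat.dvd_mul_right M N) (ZMod.unitOfCoprime x hx)
  refine ⟨(u : ZMod (M * N)).val, (ZMod.val_coe_unit_coprime u).coprime_dvd_right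
    (Nat.dvd_mul_left N M), ?_⟩
  rw [← ZMod.natCast_eq_natCast_iff]
  have := congrArg (fun v : (ZMod M)ˣ => (v : ZMod M)) hu
  simp only [ZMod.unitsMap_val, ZMod.coe_unitOfCoprime] at this
  rw [← this, ZMod.natCast_val]

/-- The cycle lengths. -/
def hh (r a : ℕ) : ℕ := 4 * (a + 1) * (r + 1).factorial - 1

lemma hh_add (r a : ℕ) : hh r a + 1 = 4 * (a + 1) * (r + 1).factorial := by
  unfold hh
  have := Nat.factorial_pos (r + 1)
  have : 0 < 4 * (a + 1) * (r + 1).factorial := by positivity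
  omega

lemma hh_mod (r a : ℕ) : hh r a % 4 = 3 := by
  have := hh_add r a
  rw [mul_assoc] at this
  omega

lemma hh_cop (r a b : ℕ) (hb0 : 0 < b) (hb : b ≤ r + 1) :
    (hh r a).Coprime (4 * b * (r + 1).factorial) := by
  have h1 : (hh r a).Coprime (4 * (a + 1) * (r + 1).factorial) := by
    rw [← hh_add]; simp
  have h2 : b ∣ (r + 1).factorial := Nat.dvd_factorial hb0 hb
  refine (h1.mul_right h1).coprime_dvd_right ?_
  obtain ⟨t, ht⟩ := h2
  refine ⟨(a + 1) * (4 * (a + 1)) * t, ?_⟩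
  nth_rewrite 1 [ht]
  ring

lemma hh_pair (r a b : ℕ) (hab : a < b) (hb : b ≤ r + 1) : (hh r a).Coprime (hh r b) := by
  obtain ⟨d, rfl⟩ := Nat.exists_eq_add_of_lt hab
  have h1 := hh_cop r a (d + 1) (by omega) (by omega)
  have e : hh r (a + d + 1) = 4 * (d + 1) * (r + 1).factorial + hh r a := by
    have h2 := hh_add r a
    have h3 := hh_add r (a + d + 1)
    nlinarith
  rw [e]
  simpa using h1

lemma hh_pair' (r a b : ℕ) (hab : a ≠ b) (ha : a ≤ r + 1) (hb : b ≤ r + 1) :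
    (hh r a).Coprime (hh r b) := by
  rcases lt_or_gt_of_ne hab with h | h
  · exact hh_pair r a b h hb
  · exact (hh_pair r b a h ha).symm

theorem main (c : ℕ) : ∃ (G : Type) (_ : Group G) (_ : Finite G),
    (∃ m : ℤ, IsCoprime m (Nat.card G : ℤ) ∧ IsMSemiRational G m) ∧
      c < Module.finrank ℚ (charField G) := by
  classical
  let h : Fin (c + 1) → ℕ := fun a => hh c a
  have hmod : ∀ a, h a % 4 = 3 := fun a => hh_mod c a
  let H : ℕ := ∏ a, h a
  have hHodd : Odd H := Finset.prod_induction _ Odd (fun _ _ => Odd.mul) odd_one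
    fun a _ => Nat.odd_iff.2 (by have := hmod a; omega)
  have hHdvd : ∀ a, h a ∣ H := fun a => Finset.dvd_prod_of_mem _ (Finset.mem_univ a)
  have hle : ∀ a, h a ≤ H := fun a => Nat.le_of_dvd hHodd.pos (hHdvd a)
  let k : Fin (c + 1) → ℕ := fun a => 3 * H - 1 - h a
  have hk : ∀ a, k a + (h a + 1) = 3 * H := by
    intro a
    have := hle a
    have := hHodd.pos
    simp only [k]; omega
  have hkodd : ∀ a, Odd (k a) := by
    intro a
    have h1 := hk a
    have h2 := hmod a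
    have h3 := Nat.odd_iff.1 hHodd
    exact Nat.odd_iff.2 (by omega)
  have hk1 : ∀ a, 1 < k a := by
    intro a
    have h1 := hk a
    have h2 := hmod a
    have h3 := hle a
    omega
  have hcop : ∀ a b, (h a).Coprime (k b) := by
    intro a b
    have h1 : (h a).Coprime (h b + 1) := by
      simp only [h]
      rw [hh_add]
      exact hh_cop c a (b + 1) (by omega) (by have := b.2; omega)
    rw [Nat.coprime_iff_gcd_eq_one]
    apply Nat.eq_one_of_dvd_coprimes h1 (Nat.gcd_dvd_left _ _)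
    have h2 : (h a).gcd (k b) ∣ k b + (h b + 1) := by
      rw [hk]
      exact (Nat.gcd_dvd_left _ _).trans ((hHdvd a).mul_left 3)
    exact (Nat.dvd_add_right (Nat.gcd_dvd_right _ _)).1 h2
  have hpair : ∀ a b, a ≠ b → (h a).Coprime (h b) := by
    intro a b hab
    exact hh_pair' c a b (fun e => hab (Fin.ext e)) (by have := a.2; omega) (by have := b.2; omega)
  let α : Type := Fin (3 * H - 1)
  have hg : ∀ a, ∃ g : Perm α, sign g = 1 ∧ g ^ (h a * k a) = 1 ∧
      ∀ j : ℕ, (j : ZMod (h a)) = -1 → (j : ZMod (k a)) = 1 →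
      ∀ c : Perm α, c * g * c⁻¹ = g ^ j → sign c = -1 := by
    intro a
    haveI : NeZero (h a) := ⟨by have := hmod a; omega⟩
    haveI : NeZero (k a) := ⟨by have := hk1 a; omega⟩
    refine exists_two_cycle (h a) (k a) ?_ (hmod a) (hkodd a) (hk1 a) (hcop a a)
    have := hk a
    simp only [α, Fintype.card_fin]
    omega
  choose g hg1 hg2 hg3 using hg
  let n : ℕ := Nat.card (Perm α × DihedralGroup 4)
  have hn : 0 < n := Nat.card_pos
  let L : ℕ := ordCompl[2] n
  have hL : ¬ 2 ∣ L := Nat.not_dvd_ordCompl Nat.prime_two hn.ne'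
  have hL' : ∀ d, d ∣ n → ¬ 2 ∣ d → d ∣ L := fun d h1 h2 =>
    Nat.dvd_ordCompl_of_dvd_not_dvd h1 h2
  refine ⟨GG α, inferInstance, inferInstance, ⟨((1 + 2 * L : ℕ) : ℤ), ?_, GG_semi L hL ?_⟩, ?_⟩
  · rw [Nat.isCoprime_iff_coprime]
    refine Nat.Coprime.coprime_dvd_right (Subgroup.card_subgroup_dvd_card (GG α)) ?_
    apply Nat.coprime_of_dvd
    intro p hp h1 h2
    by_cases h3 : 2 ∣ p
    · have := h3.trans h1
      omega
    · have h4 := (hL' p h2 h3).mul_left 2
      have := (Nat.dvd_add_left h4).1 h1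
      exact hp.one_lt.ne' (Nat.dvd_one.1 this)
  · intro σ hσ
    refine hL' _ ?_ hσ
    simp only [n]
    rw [Nat.card_prod]
    exact (orderOf_dvd_natCard σ).mul_right _
  let Q : Fin (c + 1) → ℕ := fun a => 4 * ((∏ b, k b) * ∏ b ∈ Finset.univ.erase a, h b)
  have hQ : ∀ a, (h a).Coprime (Q a) := by
    intro a
    refine Nat.Coprime.mul_right ?_ (Nat.Coprime.mul_right ?_ ?_)
    · have : (h a).Coprime (2 ^ 2) := by
        apply Nat.Coprime.pow_right
        rw [Nat.coprime_two_right]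
        exact Nat.odd_iff.2 (by have := hmod a; omega)
      simpa using this
    · exact Nat.Coprime.prod_right fun b _ => hcop a b
    · exact Nat.Coprime.prod_right fun b hb => hpair a b (Finset.ne_of_mem_erase hb).symm
  have hQpos : ∀ a, 0 < Q a := by
    intro a
    refine Nat.mul_pos (by norm_num) (Nat.mul_pos ?_ ?_)
    · exact Finset.prod_pos fun b _ => by have := hk1 b; omega
    · exact Finset.prod_pos fun b _ => by have := hmod b; omega
  have hj : ∀ a, ∃ j : ℕ, j.Coprime (Nat.card (GG α)) ∧ (j : ZMod (h a)) = -1 ∧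
      j ≡ 1 [MOD Q a] := by
    intro a
    have h0 : 1 ≤ h a := by have := hmod a; omega
    obtain ⟨x, hx1, hx2⟩ := Nat.chineseRemainder (hQ a) (h a - 1) 1
    have hx : x.Coprime (h a * Q a) := by
      refine Nat.Coprime.mul_right ?_ ?_
      · rw [Nat.Coprime, hx1.gcd_eq]
        exact (Nat.coprime_self_sub_left h0).2 (by simp)
      · rw [Nat.Coprime, hx2.gcd_eq]
        simp
    obtain ⟨j, hj1, hj2⟩ := exists_lift (h a * Q a) (Nat.card (GG α)) x Nat.card_pos
      (Nat.mul_pos h0 (hQpos a)) hx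
    refine ⟨j, hj1, ?_, (hj2.of_mul_left _).trans hx2⟩
    rw [(ZMod.natCast_eq_natCast_iff _ _ _).2 ((hj2.of_mul_right _).trans hx1)]
    rw [Nat.cast_sub h0]
    simp
  choose j hj1 hj2 hj3 using hj
  have hj4 : ∀ a, j a % 4 = 1 := fun a => (hj3 a).of_mul_right _
  have hjk : ∀ a b, j a ≡ 1 [MOD k b] := fun a b =>
    (((hj3 a).of_mul_left _).of_mul_right _).of_dvd (Finset.dvd_prod_of_mem _ (Finset.mem_univ b))
  have hjh : ∀ a b, b ≠ a → j a ≡ 1 [MOD h b] := fun a b hab =>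
    (((hj3 a).of_mul_left _).of_mul_left _).of_dvd
      (Finset.dvd_prod_of_mem _ (Finset.mem_erase.2 ⟨hab, Finset.mem_univ b⟩))
  have := le_finrank_charField (GG α) (Nat.card (GG α)) Nat.card_pos (fun x => pow_card_eq_one')
    (Fin (c + 1)) j hj1 ?_
  · simpa using this
  intro a b hab
  refine ⟨⟨(g a, DihedralGroup.r 1), by rw [mem_GG, hg1]; rfl⟩, fun hconj => ?_⟩
  obtain ⟨u, v, h1, h2, h3⟩ := (isConj_GG_iff _ _).1 hconj.symm
  simp only [SubmonoidClass.coe_pow, Prod.pow_fst, Prod.pow_snd] at h2 h3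
  rw [dih_pow_mod _ (j a), dih_pow_mod _ (j b), hj4, hj4] at h3
  have h4 : eps v = 1 := by
    have key : ∀ v : DihedralGroup 4,
        v * DihedralGroup.r 1 ^ 1 * v⁻¹ = DihedralGroup.r 1 ^ 1 → eps v = 1 := by decide
    exact key v h3
  have h5 : g a ^ j b = g a := by
    have h6 : j b ≡ 1 [MOD h a * k a] :=
      (Nat.modEq_and_modEq_iff_modEq_mul (hcop a a)).1 ⟨hjh b a hab, hjk b a⟩
    rw [pow_eq_pow_mod _ (hg2 a), h6, ← pow_eq_pow_mod _ (hg2 a), pow_one]
  rw [h5] at h2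
  have h7 := hg3 a (j a) (hj2 a) (by
    rw [(ZMod.natCast_eq_natCast_iff _ _ _).2 (hjk a a)]; simp) u h2
  rw [h7, h4] at h1
  exact absurd h1 (by decide)

end Pool.Agent.P.MP_fc75c6_al
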