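import Pool.Agent.P.MP_fc75c6_al.Defs

namespace Pool.Agent.P.MP_fc75c6_al

open Module

section Sep

variable {G : Type} [Group G] [Fintype G]

/-- The class sum difference operator. -/
noncomputable def clsOp {V : Type} [AddCommGroup V] [Module ℂ V] (ρ : Representation ℂ G V)
    (x y : G) : V →ₗ[ℂ] V :=
  ∑ g : G, (ρ (g * x * g⁻¹) - ρ (g * y * g⁻¹))

lemma clsOp_comm {V : Type} [AddCommGroup V] [Module ℂ V] (ρ : Representation ℂ G V)
    (x y h : G) : ρ h * clsOp ρ x y = clsOp ρ x y * ρ h := by
  unfold clsOp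
  rw [Finset.mul_sum, Finset.sum_mul]
  refine Fintype.sum_equiv (Equiv.mulLeft h) _ _ ?_
  intro g
  simp only [Equiv.coe_mulLeft, mul_sub, sub_mul, ← map_mul]
  congr 2 <;> group

lemma trace_clsOp {V : Type} [AddCommGroup V] [Module ℂ V] (ρ : Representation ℂ G V)
    (x y : G) : LinearMap.trace ℂ V (clsOp ρ x y) =
      (Fintype.card G : ℂ) * (ρ.character x - ρ.character y) := by
  unfold clsOp
  rw [map_sum]
  have : ∀ g : G, LinearMap.trace ℂ V (ρ (g * x * g⁻¹) - ρ (g * y * g⁻¹)) =
      ρ.character x - ρ.character y := by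
    intro g
    rw [map_sub]
    have h1 := ρ.char_conj x g
    have h2 := ρ.char_conj y g
    unfold Representation.character at h1 h2 ⊢
    rw [h1, h2]
  rw [Finset.sum_congr rfl fun g _ => this g]
  simp [mul_sub]

lemma simple_of_irreducible {V : Type} [AddCommGroup V] [Module ℂ V] [FiniteDimensional ℂ V]
    (ρ : Representation ℂ G V) [ρ.IsIrreducible] : CategoryTheory.Simple (FDRep.of ρ) := by
  have hc : (Nat.card G : ℂ) ≠ 0 := by exact_mod_cast Nat.card_pos.ne'
  haveI : Invertible (Nat.card G : ℂ) := invertibleOfNonzero hc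
  rw [FDRep.simple_iff_char_is_norm_one]
  have h := Representation.char_orthonormal ρ ρ
  rw [if_pos ⟨Representation.Equiv.refl ρ⟩] at h
  have h2 : ∑ g : G, ρ.character g * ρ.character g⁻¹ = Nat.card G := by
    field_simp at h
    simpa using h
  exact h2

lemma clsOp_eq_zero_of_irreducible {V : Type} [AddCommGroup V] [Module ℂ V]
    [FiniteDimensional ℂ V] (ρ : Representation ℂ G V) [hi : ρ.IsIrreducible] (x y : G)
    (h : ρ.character x = ρ.character y) : clsOp ρ x y = 0 := by
  have hnt : Nontrivial V := by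
    by_contra hV
    rw [not_nontrivial_iff_subsingleton] at hV
    have : (⊥ : Subrepresentation ρ) = ⊤ := by
      apply Subrepresentation.toSubmodule_injective
      exact Subsingleton.elim _ _
    exact bot_ne_top this
  obtain ⟨c, hc⟩ := Module.End.exists_eigenvalue (clsOp ρ x y)
  let W : Subrepresentation ρ :=
    { toSubmodule := Module.End.eigenspace (clsOp ρ x y) c
      apply_mem_toSubmodule := by
        intro g v hv
        rw [Module.End.mem_eigenspace_iff] at hv ⊢
        have := congrArg (fun T => T v) (clsOp_comm ρ x y g)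
        simp only [Module.End.mul_apply] at this
        rw [← this, hv, map_smul] }
  have hW : W = ⊤ := by
    rcases eq_bot_or_eq_top W with h0 | h0
    · exfalso
      apply hc
      have := congrArg Subrepresentation.toSubmodule h0
      exact this
    · exact h0
  have hall : clsOp ρ x y = c • LinearMap.id := by
    ext v
    have hv : v ∈ W.toSubmodule := by rw [hW]; trivial
    simpa using Module.End.mem_eigenspace_iff.1 hv
  have ht := trace_clsOp ρ x y
  rw [h, sub_self, mul_zero, hall, map_smul, LinearMap.trace_id] at ht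
  have hd : (finrank ℂ V : ℂ) ≠ 0 := by exact_mod_cast Module.finrank_pos.ne'
  have : c = 0 := by simpa [hd] using ht
  rw [hall, this, zero_smul]

lemma clsOp_eq_zero (x y : G)
    (h : ∀ V : FDRep ℂ G, CategoryTheory.Simple V → V.character x = V.character y) (n : ℕ) :
    ∀ (V : Type) [AddCommGroup V] [Module ℂ V] [FiniteDimensional ℂ V]
      (ρ : Representation ℂ G V), finrank ℂ V = n → clsOp ρ x y = 0 := by
  induction n using Nat.strong_induction_on with
  | _ n ih =>
    intro V _ _ _ ρ hn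
    by_cases hi : ρ.IsIrreducible
    · exact clsOp_eq_zero_of_irreducible ρ x y (h _ (simple_of_irreducible ρ))
    by_cases hV : Subsingleton V
    · exact Subsingleton.elim _ _
    have hbt : (⊥ : Subrepresentation ρ) ≠ ⊤ := by
      intro h0
      apply hV
      have := congrArg Subrepresentation.toSubmodule h0
      exact (Submodule.subsingleton_iff ℂ).1 (subsingleton_of_bot_eq_top this)
    have hex : ∃ W : Subrepresentation ρ, W ≠ ⊥ ∧ W ≠ ⊤ := by
      by_contra hne
      push Not at hne
      apply hi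
      haveI : Nontrivial (Subrepresentation ρ) := ⟨⟨_, _, hbt⟩⟩
      exact ⟨fun W => by
        by_cases h0 : W = ⊥
        · exact Or.inl h0
        · exact Or.inr (hne W h0)⟩
    obtain ⟨W, hW0, hW1⟩ := hex
    haveI : NeZero (Nat.card G : ℂ) := ⟨by exact_mod_cast Nat.card_pos.ne'⟩
    obtain ⟨W', hWW'⟩ := exists_isCompl W
    have hW'1 : W' ≠ ⊤ := by
      intro h0
      apply hW0
      have := hWW'.inf_eq_bot
      rwa [h0, inf_top_eq] at this
    have key : ∀ U : Subrepresentation ρ, U ≠ ⊤ → ∀ v ∈ U.toSubmodule, clsOp ρ x y v = 0 := by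
      intro U hU v hv
      have hlt : finrank ℂ U.toSubmodule < n := by
        rw [← hn]
        apply Submodule.finrank_lt
        intro h0
        apply hU
        apply Subrepresentation.toSubmodule_injective
        exact h0
      have := ih _ hlt U.toSubmodule U.toRepresentation rfl
      have h2 := congrArg (fun T => ((T ⟨v, hv⟩ : U.toSubmodule) : V)) this
      simp only [clsOp, LinearMap.sum_apply, LinearMap.sub_apply, LinearMap.zero_apply] at h2 ⊢
      rw [Submodule.coe_sum] at h2
      exact h2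
    ext v
    have hv : v ∈ (W ⊔ W').toSubmodule := by rw [hWW'.sup_eq_top]; trivial
    rw [Subrepresentation.toSubmodule_sup, Submodule.mem_sup] at hv
    obtain ⟨a, ha, b, hb, rfl⟩ := hv
    rw [map_add, key W hW1 a ha, key W' hW'1 b hb]
    simp

/-- The regular representation on functions. -/
def regRep (G : Type) [Group G] : Representation ℂ G (G → ℂ) where
  toFun g :=
    { toFun := fun f t => f (g⁻¹ * t)
      map_add' := fun _ _ => rfl
      map_smul' := fun _ _ => rfl }
  map_one' := by ext f t; simp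
  map_mul' g h := by
    refine LinearMap.ext fun f => funext fun t => ?_
    simp [mul_assoc]

theorem isConj_of_chars (x y : G)
    (h : ∀ V : FDRep ℂ G, CategoryTheory.Simple V → V.character x = V.character y) :
    IsConj x y := by
  classical
  have h0 := clsOp_eq_zero x y h _ (G → ℂ) (regRep G) rfl
  have h1 := congrArg (fun T => T (fun t => if t = 1 then 1 else 0) x) h0
  simp only [clsOp, LinearMap.sum_apply, LinearMap.sub_apply, LinearMap.zero_apply,
    Pi.zero_apply, Finset.sum_apply, Pi.sub_apply, regRep, MonoidHom.coe_mk, OneHom.coe_mk,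
    LinearMap.coe_mk, AddHom.coe_mk, inv_mul_eq_one] at h1
  by_contra hne
  have h2 : ∀ g : G, ¬ (g * y * g⁻¹ = x) := by
    intro g hg
    exact hne (isConj_iff.2 ⟨g, hg⟩).symm
  simp only [h2, if_false, sub_zero] at h1
  rw [Finset.sum_boole] at h1
  have h3 : (Finset.univ.filter fun g : G => g * x * g⁻¹ = x).card = 0 := by exact_mod_cast h1
  rw [Finset.card_eq_zero, Finset.filter_eq_empty_iff] at h3
  exact h3 (Finset.mem_univ 1) (by simp)

end Sep

section Gal

/-- Traces of powers of a finite order operator. -/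
theorem exists_trace_pow {V : Type} [AddCommGroup V] [Module ℂ V] [FiniteDimensional ℂ V]
    (T : V →ₗ[ℂ] V) (N : ℕ) (hN : 0 < N) (hT : T ^ N = 1) (ζ : ℂ) (hζ : IsPrimitiveRoot ζ N) :
    ∃ m : ℕ → ℕ, ∀ j : ℕ, LinearMap.trace ℂ V (T ^ j) =
      ∑ a ∈ Finset.range N, (m a : ℂ) * (ζ ^ a) ^ j := by
  have hN' : (N : ℂ) ≠ 0 := by exact_mod_cast hN.ne'
  have hζ0 : ζ ≠ 0 := hζ.ne_zero hN.ne'
  let P : ℕ → V →ₗ[ℂ] V := fun a =>
    (N : ℂ)⁻¹ • ∑ k ∈ Finset.range N, ((ζ ^ a)⁻¹ ^ k) • T ^ k
  have hone : ∀ a, (ζ ^ a)⁻¹ ^ N = 1 := by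
    intro a
    rw [inv_pow, ← pow_mul, mul_comm, pow_mul, hζ.pow_eq_one, one_pow, inv_one]
  have hTP : ∀ a, T * P a = (ζ ^ a) • P a := by
    intro a
    have hz : ζ ^ a ≠ 0 := pow_ne_zero _ hζ0
    simp only [P, mul_smul_comm, Finset.mul_sum]
    rw [smul_comm (ζ ^ a)]
    congr 1
    have e1 : ∀ k, (ζ ^ a)⁻¹ ^ k • (T * T ^ k) =
        ζ ^ a • ((ζ ^ a)⁻¹ ^ (k + 1) • T ^ (k + 1)) := by
      intro k
      rw [smul_smul, ← pow_succ']
      congr 1
      rw [pow_succ]
      field_simp
    rw [Finset.sum_congr rfl fun k _ => e1 k, ← Finset.smul_sum]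
    congr 1
    have := Finset.sum_range_succ' (fun k => (ζ ^ a)⁻¹ ^ k • T ^ k) N
    rw [Finset.sum_range_succ, hone, hT] at this
    simp only [pow_zero] at this
    exact (add_right_cancel this).symm
  have hTjP : ∀ a j, T ^ j * P a = (ζ ^ a) ^ j • P a := by
    intro a j
    induction j with
    | zero => simp
    | succ j ih => rw [pow_succ', mul_assoc, ih, mul_smul_comm, hTP, smul_smul, pow_succ]
  have hidem : ∀ a, IsIdempotentElem (P a) := by
    intro a
    have hz : ζ ^ a ≠ 0 := pow_ne_zero _ hζ0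
    unfold IsIdempotentElem
    nth_rewrite 1 [show P a = (N : ℂ)⁻¹ • ∑ k ∈ Finset.range N, ((ζ ^ a)⁻¹ ^ k) • T ^ k from rfl]
    rw [smul_mul_assoc, Finset.sum_mul]
    have e1 : ∀ k, ((ζ ^ a)⁻¹ ^ k • T ^ k) * P a = P a := by
      intro k
      rw [smul_mul_assoc, hTjP, smul_smul, ← mul_pow, inv_mul_cancel₀ hz, one_pow, one_smul]
    rw [Finset.sum_congr rfl fun k _ => e1 k, Finset.sum_const, Finset.card_range,
      ← Nat.cast_smul_eq_nsmul ℂ, smul_smul, inv_mul_cancel₀ hN', one_smul]
  have hsum : ∑ a ∈ Finset.range N, P a = 1 := by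
    simp only [P]
    rw [← Finset.smul_sum, Finset.sum_comm]
    have e1 : ∀ k ∈ Finset.range N, ∑ a ∈ Finset.range N, ((ζ ^ a)⁻¹ ^ k) • T ^ k =
        if k = 0 then (N : ℂ) • (1 : V →ₗ[ℂ] V) else 0 := by
      intro k hk
      rw [← Finset.sum_smul]
      split_ifs with h0
      · subst h0
        simp
      · have hne : (ζ⁻¹ ^ k) ≠ 1 := hζ.inv.pow_ne_one_of_pos_of_lt h0 (Finset.mem_range.1 hk)
        have e2 : ∀ a, (ζ ^ a)⁻¹ ^ k = (ζ⁻¹ ^ k) ^ a := by
          intro a
          rw [← inv_pow, ← pow_mul, ← pow_mul, mul_comm]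
        rw [Finset.sum_congr rfl fun a _ => e2 a, geom_sum_eq hne, ← pow_mul, mul_comm, pow_mul,
          hζ.inv.pow_eq_one]
        simp
    rw [Finset.sum_congr rfl e1, Finset.sum_ite_eq', if_pos (Finset.mem_range.2 hN), smul_smul,
      inv_mul_cancel₀ hN', one_smul]
  refine ⟨fun a => finrank ℂ (LinearMap.range (P a)), fun j => ?_⟩
  conv_lhs => rw [← mul_one (T ^ j), ← hsum, Finset.mul_sum, map_sum]
  refine Finset.sum_congr rfl fun a _ => ?_
  rw [hTjP, map_smul, (LinearMap.IsIdempotentElem.isProj_range _ (hidem a)).trace, smul_eq_mul,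
    mul_comm]

theorem le_finrank_charField (G : Type) [Group G] [Finite G] (N : ℕ) (hN : 0 < N)
    (hexp : ∀ g : G, g ^ N = 1) (ι : Type) [Fintype ι] (j : ι → ℕ)
    (hj : ∀ a, (j a).Coprime N)
    (hsep : ∀ a b, a ≠ b → ∃ x : G, ¬ IsConj (x ^ j a) (x ^ j b)) :
    Fintype.card ι ≤ finrank ℚ (charField G) := by
  classical
  haveI := Fintype.ofFinite G
  let ζ : ℂ := Complex.exp (2 * Real.pi * Complex.I / N)
  have hζ : IsPrimitiveRoot ζ N := Complex.isPrimitiveRoot_exp N hN.ne'
  have hint : IsIntegral ℚ ζ := (hζ.isIntegral hN).tower_top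
  let L : IntermediateField ℚ ℂ := IntermediateField.adjoin ℚ {ζ}
  have hζL : ζ ∈ L := IntermediateField.mem_adjoin_simple_self ℚ ζ
  have hchar : ∀ (V : FDRep ℂ G) (x : G), ∃ m : ℕ → ℕ, ∀ i : ℕ, V.character (x ^ i) =
      ∑ a ∈ Finset.range N, (m a : ℂ) * (ζ ^ a) ^ i := by
    intro V x
    obtain ⟨m, hm⟩ := exists_trace_pow (V.ρ x) N hN (by rw [← map_pow, hexp, map_one]) ζ hζ
    refine ⟨m, fun i => ?_⟩
    rw [← hm, ← map_pow]
    rfl
  have hle : charField G ≤ L := by
    unfold charField
    rw [IntermediateField.adjoin_le_iff]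
    rintro z ⟨V, -, x, rfl⟩
    obtain ⟨m, hm⟩ := hchar V x
    have := hm 1
    rw [pow_one] at this
    rw [this]
    exact L.sum_mem fun a _ => L.mul_mem (natCast_mem L _) (pow_mem (pow_mem hζL _) _)
  haveI : FiniteDimensional ℚ L := IntermediateField.adjoin.finiteDimensional hint
  haveI : FiniteDimensional ℚ (charField G) :=
    FiniteDimensional.of_injective (IntermediateField.inclusion hle).toLinearMap
      (IntermediateField.inclusion_injective hle)
  have hroot : ∀ a, Polynomial.aeval (ζ ^ j a) (minpoly ℚ ζ) = 0 := by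
    intro a
    rw [← Polynomial.cyclotomic_eq_minpoly_rat hζ hN]
    have h1 := (hζ.pow_of_coprime _ (hj a)).isRoot_cyclotomic hN
    rw [Polynomial.aeval_def, Polynomial.eval₂_eq_eval_map, Polynomial.map_cyclotomic]
    exact h1
  have hφex : ∀ a, ∃ φ : L →+* ℂ, φ ⟨ζ, hζL⟩ = ζ ^ j a := by
    intro a
    let pb := IntermediateField.adjoin.powerBasis hint
    have hmin : minpoly ℚ pb.gen = minpoly ℚ ζ := IntermediateField.minpoly_gen ℚ ζ
    have h1 : Polynomial.aeval (ζ ^ j a) (minpoly ℚ pb.gen) = 0 := hmin ▸ hroot a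
    exact ⟨(pb.lift (ζ ^ j a) h1).toRingHom, pb.lift_gen _ h1⟩
  choose φ hφ using hφex
  let incl : charField G →+* L := (IntermediateField.inclusion hle).toRingHom
  let ψ : ι → (charField G →ₐ[ℚ] ℂ) := fun a => ((φ a).comp incl).toRatAlgHom
  have hψ : ∀ a (V : FDRep ℂ G) (x : G) (hx : V.character x ∈ charField G),
      ψ a ⟨V.character x, hx⟩ = V.character (x ^ j a) := by
    intro a V x hx
    obtain ⟨m, hm⟩ := hchar V x
    have e : incl ⟨V.character x, hx⟩ =
        ∑ b ∈ Finset.range N, (m b : L) * (⟨ζ, hζL⟩ : L) ^ b := by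
      apply Subtype.ext
      have := hm 1
      rw [pow_one] at this
      change V.character x = _
      rw [this]
      push_cast
      simp
    change φ a (incl ⟨V.character x, hx⟩) = _
    rw [e, map_sum, hm]
    refine Finset.sum_congr rfl fun b _ => ?_
    rw [map_mul, map_natCast, map_pow, hφ, ← pow_mul, ← pow_mul, mul_comm (j a)]
  have hinj : Function.Injective ψ := by
    intro a b hab
    by_contra hne
    obtain ⟨x, hx⟩ := hsep a b hne
    apply hx
    apply isConj_of_chars
    intro V hV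
    have hmem : V.character x ∈ charField G :=
      IntermediateField.subset_adjoin _ _ ⟨V, hV, x, rfl⟩
    rw [← hψ a V x hmem, ← hψ b V x hmem, hab]
  calc Fintype.card ι ≤ Fintype.card (charField G →ₐ[ℚ] ℂ) := Fintype.card_le_of_injective ψ hinj
    _ = finrank ℚ (charField G) := AlgHom.card ℚ (charField G) ℂ

end Gal

end Pool.Agent.P.MP_fc75c6_al
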