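import Pool.Agent.P.MP_fc75c6_al.Grp

namespace Pool.Agent.P.MP_fc75c6_al

open Equiv Equiv.Perm

lemma sign_sigmaCongr {ι : Type} [Fintype ι] [DecidableEq ι] {β : ι → Type}
    [∀ i, Fintype (β i)] [∀ i, DecidableEq (β i)] (F : ∀ i, Perm (β i)) :
    sign (Equiv.sigmaCongrRight F : Perm (Σ i, β i)) = ∏ i, sign (F i) := by
  have key : sign.comp (sigmaCongrRightHom β) =
      ∏ i, sign.comp (Pi.evalMonoidHom (fun i => Perm (β i)) i) := by
    apply MonoidHom.pi_ext
    intro i x
    have h1 : (sigmaCongrRightHom β (Pi.mulSingle i x) : Perm (Σ i, β i)) =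
        x.extendDomain (Equiv.sigmaSubtype i).symm := by
      ext1 ⟨j, b⟩
      by_cases hj : j = i
      · subst hj
        have := Perm.extendDomain_apply_image x (Equiv.sigmaSubtype (β := β) j).symm b
        simp only [sigmaCongrRightHom_apply, sigmaCongrRight_apply, Pi.mulSingle_eq_same]
        exact this.symm
      · rw [Perm.extendDomain_apply_not_subtype _ _ (by simpa using hj)]
        simp [Pi.mulSingle_eq_of_ne hj]
    rw [MonoidHom.comp_apply, h1, sign_extendDomain, MonoidHom.finsetProd_apply,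
      Finset.prod_eq_single i]
    · simp
    · intro j _ hj
      simp [Pi.mulSingle_eq_of_ne hj]
    · simp
  have := DFunLike.congr_fun key F
  rw [MonoidHom.finsetProd_apply] at this
  simpa using this

/-- The sign of multiplication by `j` on the residues modulo `2 * e + 1`. -/
noncomputable def sg (j e : ℕ) : ℤˣ :=
  if h : j.Coprime (2 * e + 1) then sign (ZMod.unitOfCoprime j h).mulLeft else 1

lemma sg_zero (j : ℕ) : sg j 0 = 1 := by
  unfold sg
  split_ifs with h
  · have : (ZMod.unitOfCoprime j h).mulLeft = 1 := by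
      ext a
      exact Subsingleton.elim (α := Fin 1) _ _
    rw [this, map_one]
  · rfl

lemma sg_congr (j k e : ℕ) (h : j ≡ k [MOD 2 * e + 1]) : sg j e = sg k e := by
  unfold sg
  have h1 : j.Coprime (2 * e + 1) ↔ k.Coprime (2 * e + 1) := by
    rw [Nat.Coprime, Nat.Coprime, h.gcd_eq]
  by_cases hj : j.Coprime (2 * e + 1)
  · rw [dif_pos hj, dif_pos (h1.1 hj)]
    congr 2
    apply Units.ext
    simp only [ZMod.coe_unitOfCoprime]
    exact (ZMod.natCast_eq_natCast_iff _ _ _).2 h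
  · rw [dif_neg hj, dif_neg (fun hk => hj (h1.2 hk))]

lemma sg_one (e : ℕ) : sg 1 e = 1 := by
  unfold sg
  rw [dif_pos (Nat.coprime_one_left _)]
  have : (ZMod.unitOfCoprime 1 (Nat.coprime_one_left (2 * e + 1))).mulLeft = 1 := by
    ext a
    simp
  rw [this, map_one]

lemma exists_sg_neg (e : ℕ) (hp : (2 * e + 1).Prime) :
    ∃ r : ℕ, r.Coprime (2 * e + 1) ∧ sg r e = -1 := by
  have := Fact.mk hp
  have he : e ≠ 0 := by rintro rfl; exact absurd hp (by decide)
  obtain ⟨u, hu⟩ := IsCyclic.exists_generator (α := (ZMod (2 * e + 1))ˣ)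
  have hord : orderOf u = 2 * e := by
    rw [orderOf_eq_card_of_forall_mem_zpowers hu, Nat.card_eq_fintype_card, ZMod.card_units]
    simp
  have hu1 : u ≠ 1 := by
    rintro rfl
    rw [orderOf_one] at hord
    omega
  have hpow : ∀ (t : ℕ) (a : ZMod (2 * e + 1)), (u.mulLeft ^ t) a = ((u ^ t : _ˣ) : _) * a := by
    intro t a
    induction t with
    | zero => simp
    | succ t ih => rw [pow_succ', Perm.mul_apply, ih, pow_succ']; simp [mul_assoc]
  have hcyc : IsCycle u.mulLeft := by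
    refine ⟨1, by simpa using hu1, fun y hy => ?_⟩
    have hy0 : y ≠ 0 := by rintro rfl; simp at hy
    obtain ⟨t, ht⟩ := (mem_powers_iff_mem_zpowers).2 (hu (Units.mk0 y hy0))
    refine ⟨(t : ℤ), ?_⟩
    rw [zpow_natCast, hpow]
    simp only at ht
    rw [ht]; simp
  have hsupp : (u.mulLeft).support = Finset.univ.erase 0 := by
    ext a
    simp only [mem_support, Units.mulLeft_apply, Finset.mem_erase, Finset.mem_univ, and_true]
    constructor
    · rintro h rfl; simp at h
    · intro ha h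
      apply hu1
      apply Units.ext
      exact mul_right_cancel₀ ha (by simpa using h)
  refine ⟨(u : ZMod (2 * e + 1)).val, ZMod.val_coe_unit_coprime u, ?_⟩
  unfold sg
  rw [dif_pos (ZMod.val_coe_unit_coprime u)]
  have : ZMod.unitOfCoprime _ (ZMod.val_coe_unit_coprime u) = u := by
    apply Units.ext
    simp
  rw [this, hcyc.sign, hsupp, Finset.card_erase_of_mem (Finset.mem_univ _), Finset.card_univ,
    ZMod.card]
  simp [pow_mul]

section Model

variable (D : Finset ℕ)

/-- A permutation with one cycle of length `2 * e + 1` for each `e` in `D`. -/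
def gD : Perm (Σ e : D, ZMod (2 * e + 1)) := Equiv.sigmaCongrRight fun _ => Equiv.addRight 1

lemma gD_pow (t : ℕ) (e : D) (a : ZMod (2 * e + 1)) : (gD D ^ t) ⟨e, a⟩ = ⟨e, a + t⟩ := by
  induction t with
  | zero => simp
  | succ t ih => rw [pow_succ', Perm.mul_apply, ih]; simp [gD, add_assoc]

lemma sign_addRight (e : ℕ) (b : ZMod (2 * e + 1)) :
    sign (Equiv.addRight b : Perm (ZMod (2 * e + 1))) = 1 := by
  have h1 : ∀ (t : ℕ) a, ((Equiv.addRight b : Perm (ZMod (2 * e + 1))) ^ t) a = a + t * b := by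
    intro t a
    induction t with
    | zero => simp
    | succ t ih => rw [pow_succ', Perm.mul_apply, ih]; simp; ring
  have h2 : (Equiv.addRight b : Perm (ZMod (2 * e + 1))) ^ (2 * e + 1) = 1 := by
    ext a
    rw [h1, ZMod.natCast_self]; simp
  have := congrArg sign h2
  rw [map_pow, map_one] at this
  rcases Int.units_eq_one_or (sign (Equiv.addRight b : Perm (ZMod (2 * e + 1)))) with h | h
  · exact h
  · rw [h, (odd_two_mul_add_one e).neg_one_pow] at this
    exact absurd this (by decide)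

lemma centralizer_gD (c : Perm (Σ e : D, ZMod (2 * e + 1))) (hc : Commute c (gD D)) :
    sign c = 1 := by
  have hcomm : ∀ (t : ℕ) z, c ((gD D ^ t) z) = (gD D ^ t) (c z) := fun t z =>
    congrArg (fun e : Perm _ => e z) (hc.pow_right t).eq
  have h0 : ∀ e : D, ∃ b, c ⟨e, 0⟩ = ⟨e, b⟩ := by
    intro e
    rcases hz : c ⟨e, 0⟩ with ⟨e', b⟩
    have h1 := hcomm (2 * e + 1) ⟨e, 0⟩
    rw [gD_pow, ZMod.natCast_self, add_zero, hz, gD_pow] at h1
    have h2 : ((2 * e + 1 : ℕ) : ZMod (2 * e' + 1)) = 0 := by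
      have := eq_of_heq (Sigma.mk.inj h1).2
      exact left_eq_add.1 this
    have h3 := hcomm (2 * e' + 1) ⟨e, 0⟩
    rw [hz, gD_pow D _ e', ZMod.natCast_self, add_zero, ← hz, gD_pow] at h3
    have h4 : ((2 * e' + 1 : ℕ) : ZMod (2 * e + 1)) = 0 := by
      have := eq_of_heq (Sigma.mk.inj (c.injective h3)).2
      exact (zero_add _).symm.trans this
    rw [ZMod.natCast_eq_zero_iff] at h2 h4
    have h5 := Nat.dvd_antisymm h2 h4
    have h6 : e' = e := Subtype.ext (by omega)
    subst h6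
    exact ⟨b, rfl⟩
  choose b hb using h0
  have : c = Equiv.sigmaCongrRight fun e => Equiv.addRight (b e) := by
    ext1 ⟨e, a⟩
    have := hcomm a.val ⟨e, 0⟩
    rw [gD_pow, hb, gD_pow, ZMod.natCast_zmod_val, zero_add] at this
    rw [this]
    simp [add_comm]
  rw [this, sign_sigmaCongr]
  exact Finset.prod_eq_one fun e _ => sign_addRight _ _

lemma conj_gD (j : ℕ) (hj : ∀ e ∈ D, j.Coprime (2 * e + 1)) :
    ∃ c, c * gD D * c⁻¹ = gD D ^ j ∧ sign c = ∏ e ∈ D, sg j e := by
  refine ⟨Equiv.sigmaCongrRight fun e => (ZMod.unitOfCoprime j (hj e e.2)).mulLeft, ?_, ?_⟩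
  · rw [mul_inv_eq_iff_eq_mul]
    ext1 ⟨e, a⟩
    simp only [Perm.mul_apply]
    change (⟨e, (j : ZMod (2 * e + 1)) * (a + 1)⟩ : Σ e : D, ZMod (2 * e + 1)) =
      (gD D ^ j) ⟨e, (j : ZMod (2 * e + 1)) * a⟩
    rw [gD_pow, mul_add, mul_one]
  · rw [sign_sigmaCongr, ← Finset.prod_coe_sort D]
    refine Finset.prod_congr rfl fun e _ => ?_
    unfold sg
    rw [dif_pos (hj e e.2)]

end Model

theorem exists_split (D : Finset ℕ) (n : ℕ) (hn : ∑ e ∈ D, (2 * e + 1) = n) :
    ∃ g : Perm (Fin n), sign g = 1 ∧ ∀ a b : ℕ, (∀ e ∈ D, a.Coprime (2 * e + 1)) →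
      (∀ e ∈ D, b.Coprime (2 * e + 1)) → ∀ c : Perm (Fin n), c * g ^ a * c⁻¹ = g ^ b →
        sign c = ∏ e ∈ D, (sg a e * sg b e) := by
  let e : (Σ e : D, ZMod (2 * e + 1)) ≃ Fin n := Fintype.equivOfCardEq (by
    rw [Fintype.card_sigma, Fintype.card_fin, ← hn, ← Finset.sum_coe_sort D]
    simp)
  let Φ : Perm (Σ e : D, ZMod (2 * e + 1)) ≃* Perm (Fin n) := e.permCongrHom
  have hΦ : ∀ p, sign (Φ p) = sign p := fun p => sign_permCongr e p
  refine ⟨Φ (gD D), ?_, ?_⟩
  · rw [hΦ, centralizer_gD D _ (Commute.refl _)]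
  · intro a b ha hb c hc
    obtain ⟨c, rfl⟩ := Φ.surjective c
    rw [hΦ]
    have hc' : c * gD D ^ a * c⁻¹ = gD D ^ b := by
      apply Φ.injective
      simpa using hc
    obtain ⟨ca, h1, h2⟩ := conj_gD D a ha
    obtain ⟨cb, h3, h4⟩ := conj_gD D b hb
    have hd : Commute (cb⁻¹ * c * ca) (gD D) := by
      rw [← h1, ← h3] at hc'
      unfold Commute SemiconjBy
      calc cb⁻¹ * c * ca * gD D = cb⁻¹ * (c * (ca * gD D * ca⁻¹) * c⁻¹) * c * ca := by group
        _ = gD D * (cb⁻¹ * c * ca) := by rw [hc']; group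
    have h5 := centralizer_gD D _ hd
    rw [map_mul, map_mul, map_inv] at h5
    rw [Finset.prod_mul_distrib, ← h2, ← h4]
    rcases Int.units_eq_one_or (sign c) with e1 | e1 <;>
    rcases Int.units_eq_one_or (sign ca) with e2 | e2 <;>
    rcases Int.units_eq_one_or (sign cb) with e3 | e3 <;>
    simp only [e1, e2, e3] at h5 ⊢ <;> first | rfl | exact absurd h5 (by decide)

end Pool.Agent.P.MP_fc75c6_al
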