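import Pool.Agent.P.MP_fc75c6_al.Grp

namespace Pool.Agent.P.MP_fc75c6_al

open Equiv Equiv.Perm

/-- The group of order 64 of triples `(b, s, z)`, an extension of the cyclic group of order 8 by
the product of cyclic groups of orders 2 and 4, where `(s, z)` acts as `(-1) ^ s * 3 ^ z`. -/
def HH : Type := ZMod 8 × ZMod 2 × ZMod 4

instance : DecidableEq HH := inferInstanceAs (DecidableEq (ZMod 8 × ZMod 2 × ZMod 4))

instance : Fintype HH := inferInstanceAs (Fintype (ZMod 8 × ZMod 2 × ZMod 4))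

/-- The unit of `ZMod 8` by which `(s, z)` acts. -/
def act (p : ZMod 2 × ZMod 4) : ZMod 8 :=
  (if p.1 = 0 then 1 else 7) * (if p.2 = 0 ∨ p.2 = 2 then 1 else 3)

lemma act_add : ∀ p q : ZMod 2 × ZMod 4, act (p + q) = act p * act q := by decide

lemma act_neg : ∀ p : ZMod 2 × ZMod 4, act (-p) = act p := by decide

lemma act_zero : act 0 = 1 := by decide

instance : Group HH where
  mul x y := (x.1 + act x.2 * y.1, x.2 + y.2)
  one := ((0 : ZMod 8), (0 : ZMod 2 × ZMod 4))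
  inv x := (-(act x.2 * x.1), -x.2)
  mul_assoc x y w := by
    refine Prod.ext ?_ (add_assoc x.2 y.2 w.2)
    change x.1 + act x.2 * y.1 + act (x.2 + y.2) * w.1 = x.1 + act x.2 * (y.1 + act y.2 * w.1)
    rw [act_add]; ring
  one_mul x := by
    refine Prod.ext ?_ (zero_add x.2)
    change 0 + act 0 * x.1 = x.1
    rw [act_zero]; ring
  mul_one x := by
    refine Prod.ext ?_ (add_zero x.2)
    change x.1 + act x.2 * 0 = x.1
    ring
  inv_mul_cancel x := by
    refine Prod.ext ?_ (neg_add_cancel x.2)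
    change -(act x.2 * x.1) + act (-x.2) * x.1 = 0
    rw [act_neg]; ring

/-- The sign character `(b, s, z) ↦ (-1) ^ z`. -/
def epsH : HH →* ℤˣ where
  toFun x := if x.2.2 = 0 ∨ x.2.2 = 2 then 1 else -1
  map_one' := by decide
  map_mul' x y := by
    have key : ∀ a b : ZMod 4, (if a + b = 0 ∨ a + b = 2 then (1 : ℤˣ) else -1) =
        (if a = 0 ∨ a = 2 then 1 else -1) * (if b = 0 ∨ b = 2 then 1 else -1) := by decide
    exact key x.2.2 y.2.2

lemma card_HH : Nat.card HH = 64 := by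
  rw [Nat.card_eq_fintype_card]; rfl

lemma HH_pow_eight : ∀ h : HH, h ^ 8 = 1 := by decide +kernel

lemma HH_pow_mod (h : HH) (n : ℕ) : h ^ n = h ^ (n % 8) := pow_eq_pow_mod n (HH_pow_eight h)

lemma HH_even : ∀ (h : HH) (a : Fin 4), h ^ (2 * a.val) = h → h = 1 := by decide +kernel

lemma HH_odd : ∀ (h : HH) (a : Fin 4), (∃ k, k * h * k⁻¹ = h ^ (2 * a.val + 1)) ∨
    ∃ k, k * h ^ 3 * k⁻¹ = h ^ (2 * a.val + 1) := by decide +kernel

lemma HH_split : ∀ h : HH, (∀ k, k * h = h * k → 1 = epsH k) →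
    (∀ a : Fin 4, ∃ k, k * h * k⁻¹ = h ^ (2 * a.val + 1)) ∧
      ∃ k, epsH k = -1 ∧ k * h * k⁻¹ = h ^ 3 := by decide +kernel

/-- The element of order 8 generating the cyclic normal subgroup. -/
def tH : HH := ((1 : ZMod 8), (0 : ZMod 2 × ZMod 4))

/-- The element of order 4 acting as multiplication by 3. -/
def uH : HH := ((0 : ZMod 8), ((0 : ZMod 2), (1 : ZMod 4)))

/-- The quadratic character of conductor 8 attached to the square root of 2. -/
def chi (a : ℕ) : ℤˣ := if a = 1 ∨ a = 7 then 1 else -1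

lemma tH_conj : ∀ (k : HH) (a b : Fin 8), a.val % 2 = 1 → k * tH ^ a.val * k⁻¹ = tH ^ b.val →
    epsH k = chi a * chi b := by decide +kernel

lemma uH_conj : ∀ (k : HH) (a b : Fin 8), k * uH ^ a.val * k⁻¹ = uH ^ b.val →
    a.val % 4 = b.val % 4 := by decide +kernel

lemma HH_gen (h : HH) (i j : ℕ) (hij : (h ^ j) ^ i = h) :
    ∃ a : Fin 4, h ^ j = h ^ (2 * a.val + 1) := by
  rcases Nat.even_or_odd' j with ⟨t, rfl | rfl⟩
  · have h1 : h = 1 := by
      rw [← pow_mul, HH_pow_mod] at hij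
      refine HH_even h ⟨(t * i) % 4, Nat.mod_lt _ (by norm_num)⟩ ?_
      rw [← hij]
      have : 2 * t * i % 8 = 2 * (t * i % 4) := by rw [mul_assoc]; omega
      rw [this] at hij ⊢
      simp only [hij]
    exact ⟨0, by simp [h1]⟩
  · refine ⟨⟨t % 4, Nat.mod_lt _ (by norm_num)⟩, ?_⟩
    rw [HH_pow_mod]
    congr 1
    simp only
    omega

section Fibre

variable {α : Type} [Fintype α] [DecidableEq α]

/-- The fibre product of the symmetric group and the group `HH` over their sign characters. -/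
def GH (α : Type) [Fintype α] [DecidableEq α] : Subgroup (Perm α × HH) :=
  MonoidHom.eqLocus (sign.comp (MonoidHom.fst _ _)) (epsH.comp (MonoidHom.snd _ _))

lemma mem_GH (p : Perm α × HH) : p ∈ GH α ↔ sign p.1 = epsH p.2 := Iff.rfl

lemma isConj_GH_iff (x y : GH α) : IsConj x y ↔
    ∃ c k, sign c = epsH k ∧ c * x.1.1 * c⁻¹ = y.1.1 ∧ k * x.1.2 * k⁻¹ = y.1.2 := by
  rw [isConj_iff]
  constructor
  · rintro ⟨c, rfl⟩
    exact ⟨c.1.1, c.1.2, c.2, rfl, rfl⟩
  · rintro ⟨c, k, h1, h2, h3⟩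
    exact ⟨⟨(c, k), h1⟩, Subtype.ext (Prod.ext h2 h3)⟩

lemma isConj_of_nonsplit (x y : GH α) (c c' : Perm α) (k k' : HH)
    (hc : c * x.1.1 * c⁻¹ = y.1.1) (hk : k * x.1.2 * k⁻¹ = y.1.2)
    (h1 : Commute c' x.1.1) (h2 : Commute k' x.1.2) (h3 : sign c' ≠ epsH k') : IsConj x y := by
  by_cases hs : sign c = epsH k
  · exact (isConj_GH_iff _ _).2 ⟨c, k, hs, hc, hk⟩
  refine (isConj_GH_iff _ _).2 ⟨c * c', k * k', ?_, ?_, ?_⟩
  · rw [map_mul, map_mul, Int.units_ne_iff_eq_neg.1 hs, Int.units_ne_iff_eq_neg.1 h3]; simp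
  · rw [← hc, mul_assoc c c', h1.eq]; group
  · rw [← hk, mul_assoc k k', h2.eq]; group

theorem GH_semi (m : ℕ) (hm8 : m % 8 = 3) (hmc : ∀ σ : Perm α, m.Coprime (orderOf σ))
    (hm1 : ∀ σ : Perm α, ¬ 2 ∣ orderOf σ → σ ^ m = σ) :
    IsMSemiRational (GH α) (m : ℤ) := by
  intro x y hxy
  have hy : y ∈ Submonoid.powers x := by
    rw [mem_powers_iff_mem_zpowers, ← hxy]; exact Subgroup.mem_zpowers y
  have hx : x ∈ Submonoid.powers y := by
    rw [mem_powers_iff_mem_zpowers, hxy]; exact Subgroup.mem_zpowers x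
  obtain ⟨j, rfl⟩ := hy
  obtain ⟨i, hi⟩ := hx
  simp only at hi hxy ⊢
  have hcop : j.Coprime (orderOf x) := by
    have : x ∈ Subgroup.zpowers (x ^ j) := by rw [hxy]; exact Subgroup.mem_zpowers x
    exact mem_zpowers_pow_iff.1 this
  have hdvd : orderOf x.1.1 ∣ orderOf x := by
    apply orderOf_dvd_of_pow_eq_one
    exact congrArg (fun z : GH α => z.1.1) (pow_orderOf_eq_one x)
  have hct := cycleType_pow_coprime x.1.1 j (hcop.coprime_dvd_right hdvd)
  obtain ⟨c, hc⟩ := isConj_iff.1 (isConj_of_cycleType_eq hct.symm)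
  obtain ⟨a, ha⟩ := HH_gen x.1.2 i j (by simpa using congrArg (fun z : GH α => z.1.2) hi)
  have e2 : x.1.2 ^ m = x.1.2 ^ 3 := by rw [HH_pow_mod, hm8]
  rw [zpow_natCast]
  by_cases hcen : ∃ c' k', Commute c' x.1.1 ∧ k' * x.1.2 = x.1.2 * k' ∧ sign c' ≠ epsH k'
  · obtain ⟨c', k', h1, h2, h3⟩ := hcen
    rcases HH_odd x.1.2 a with ⟨k, hk⟩ | ⟨k, hk⟩
    · left
      refine isConj_of_nonsplit _ _ c c' k k' (by simpa using hc) ?_ h1 h2 h3
      rw [hk, ← ha]; simp
    · right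
      obtain ⟨d, hd⟩ := isConj_iff.1 (isConj_of_cycleType_eq
        ((cycleType_pow_coprime x.1.1 m (hmc _)).trans hct.symm))
      refine isConj_of_nonsplit _ _ d c' k k' (by simpa using hd) ?_ ?_ ?_ h3
      · simp only [SubmonoidClass.coe_pow, Prod.pow_snd]
        rw [e2, hk, ha]
      · simpa using h1.pow_right m
      · simpa using Commute.pow_right (a := k') h2 m
  push Not at hcen
  have hodd := odd_orderOf_of_centralizer x.1.1 fun c' hc' => by
    simpa using hcen c' 1 hc' (by simp)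
  obtain ⟨hr, k0, hk0, hk1⟩ := HH_split x.1.2 fun k' hk' => by
    simpa using hcen 1 k' (Commute.one_left _) hk'
  obtain ⟨k, hk⟩ := hr a
  by_cases hs : sign c = epsH k
  · left
    refine (isConj_GH_iff _ _).2 ⟨c, k, hs, by simpa using hc, ?_⟩
    rw [hk, ← ha]; simp
  right
  refine (isConj_GH_iff _ _).2 ⟨c, k * k0⁻¹, ?_, ?_, ?_⟩
  · rw [Int.units_ne_iff_eq_neg.1 hs, map_mul, map_inv, hk0]; simp
  · simp only [SubmonoidClass.coe_pow, Prod.pow_fst]
    rw [hm1 _ hodd, hc]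
  · simp only [SubmonoidClass.coe_pow, Prod.pow_snd]
    rw [e2, ← hk1, ha, ← hk]; group

lemma card_GH [Nontrivial α] : Nat.card (GH α) = 32 * (Fintype.card α).factorial := by
  let φ : Perm α × HH →* ℤˣ := (sign.comp (MonoidHom.fst _ _)) * (epsH.comp (MonoidHom.snd _ _))
  have h1 : GH α = φ.ker := by
    ext p
    rw [mem_GH, MonoidHom.mem_ker]
    change _ ↔ sign p.1 * epsH p.2 = 1
    rcases Int.units_eq_one_or (sign p.1) with e1 | e1 <;>
    rcases Int.units_eq_one_or (epsH p.2) with e2 | e2 <;> simp [e1, e2]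
  have h2 : φ.range = ⊤ := by
    rw [MonoidHom.range_eq_top]
    intro u
    obtain ⟨σ, hσ⟩ := sign_surjective α u
    exact ⟨(σ, 1), by simp [φ, hσ]⟩
  have h3 := φ.ker.card_mul_index
  rw [Subgroup.index_ker, h2, Subgroup.card_top, Nat.card_prod, card_HH, Nat.card_perm,
    Nat.card_eq_fintype_card (α := ℤˣ), Fintype.card_units_int, Nat.card_eq_fintype_card (α := α)]
    at h3
  rw [h1]
  omega

end Fibre

end Pool.Agent.P.MP_fc75c6_al
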