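import Mathlib

namespace Pool.Agent.P.MP_fc75c6_al

theorem signs_trivial (h : ℕ) (hh : 16 ≤ h) (f : ℕ → ℤˣ) (κ : ℤˣ) (f0 : f 0 = 1)
    (hf : ∀ D : Finset ℕ, ∑ e ∈ D, (2 * e + 1) = 2 * h → ∏ e ∈ D, f e = κ) :
    κ = 1 ∧ ∀ e, e < h → f e = 1 := by
  have two : ∀ a b, a ≠ b → a + b + 1 = h → f a * f b = κ := by
    intro a b hab hs
    rw [← hf {a, b} (by rw [Finset.sum_pair hab]; omega), Finset.prod_pair hab]
  have four : ∀ a b c d, a < b → b < c → a ≠ d → b ≠ d → c ≠ d → a + b + c + d + 2 = h →
      f a * (f b * (f c * f d)) = κ := by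
    intro a b c d h1 h2 h3 h4 h5 hs
    have e1 : a ∉ ({b, c, d} : Finset ℕ) := by simp; omega
    have e2 : b ∉ ({c, d} : Finset ℕ) := by simp; omega
    rw [← hf {a, b, c, d} (by
      rw [Finset.sum_insert e1, Finset.sum_insert e2, Finset.sum_pair h5]; omega),
      Finset.prod_insert e1, Finset.prod_insert e2, Finset.prod_pair h5]
  have three : ∀ a b c, a < b → b < c → 2 * (a + b + c + 1) + 1 < h →
      f (a + b + c + 1) = f a * (f b * f c) := by
    intro a b c h1 h2 hs
    have e1 := two (a + b + c + 1) (h - (a + b + c + 2)) (by omega) (by omega)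
    have e2 := four a b c (h - (a + b + c + 2)) h1 h2 (by omega) (by omega) (by omega) (by omega)
    rw [← e2] at e1
    apply mul_right_cancel (b := f (h - (a + b + c + 2)))
    rw [e1]
    simp only [mul_assoc]
  have r4 : f 4 = f 0 * (f 1 * f 2) := three 0 1 2 (by omega) (by omega) (by omega)
  have r5 : f 5 = f 0 * (f 1 * f 3) := three 0 1 3 (by omega) (by omega) (by omega)
  have r6 : f 6 = f 0 * (f 1 * f 4) := three 0 1 4 (by omega) (by omega) (by omega)
  have r6' : f 6 = f 0 * (f 2 * f 3) := three 0 2 3 (by omega) (by omega) (by omega)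
  have r7 : f 7 = f 0 * (f 1 * f 5) := three 0 1 5 (by omega) (by omega) (by omega)
  have r7' : f 7 = f 0 * (f 2 * f 4) := three 0 2 4 (by omega) (by omega) (by omega)
  have r7'' : f 7 = f 1 * (f 2 * f 3) := three 1 2 3 (by omega) (by omega) (by omega)
  have base : f 1 = 1 ∧ f 2 = 1 ∧ f 3 = 1 := by
    rw [r6, r4] at r6'
    rw [r7, r4, r5] at r7'
    rw [r7, r5] at r7''
    rw [f0] at r6' r7' r7''
    revert r6' r7' r7''
    generalize f 1 = a
    generalize f 2 = b
    generalize f 3 = c
    revert a b c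
    decide
  obtain ⟨f1, f2, f3⟩ := base
  have low : ∀ e, 2 * e + 1 < h → f e = 1 := by
    intro e
    induction e using Nat.strong_induction_on with
    | _ e ih =>
      intro he
      by_cases h4 : e < 4
      · interval_cases e <;> assumption
      · obtain ⟨c, rfl⟩ : ∃ c, e = 0 + 1 + c + 1 := ⟨e - 2, by omega⟩
        rw [three 0 1 c (by omega) (by omega) he, f0, f1, ih c (by omega) (by omega)]
        simp
  have hκ : κ = 1 := by
    rcases Nat.even_or_odd' h with ⟨t, rfl | rfl⟩
    · rw [← four 0 1 (t - 2) (t - 1) (by omega) (by omega) (by omega) (by omega) (by omega)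
        (by omega), f0, f1, low _ (by omega), low _ (by omega)]
      simp
    · rw [← four 0 2 (t - 2) (t - 1) (by omega) (by omega) (by omega) (by omega) (by omega)
        (by omega), f0, f2, low _ (by omega), low _ (by omega)]
      simp
  refine ⟨hκ, fun e he => ?_⟩
  rcases lt_trichotomy (2 * e + 1) h with h1 | h1 | h1
  · exact low e h1
  · have := four 0 1 (e - 2) e (by omega) (by omega) (by omega) (by omega) (by omega) (by omega)
    rw [f0, f1, low (e - 2) (by omega), hκ] at this
    simpa using this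
  · have := two e (h - (e + 1)) (by omega) (by omega)
    rw [low (h - (e + 1)) (by omega), hκ] at this
    simpa using this

end Pool.Agent.P.MP_fc75c6_al
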