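import Pool.Agent.P.MP_fc75c6_al.Rep
import Pool.Agent.P.MP_fc75c6_al.TS1
import Pool.Agent.P.MP_fc75c6_al.TS2
import Pool.Agent.P.MP_fc75c6_al.TS3

namespace Pool.Agent.P.MP_fc75c6_al

open Equiv Equiv.Perm

lemma exists_exponent (P : Finset ℕ) (hP : ∀ p ∈ P, p.Prime) (h2 : 2 ∈ P) (u : Fin 4)
    (T : P.erase 2 → ℤˣ) : ∃ j : ℕ, (∀ p ∈ P, j.Coprime p) ∧ j % 8 = 2 * u.val + 1 ∧
      ∀ p : P.erase 2, sg j (p / 2) = T p := by
  classical
  have hodd : ∀ p ∈ P.erase 2, 2 * (p / 2) + 1 = p := by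
    intro p hp
    obtain ⟨h1, h3⟩ := Finset.mem_erase.1 hp
    have := (hP p h3).eq_two_or_odd.resolve_left h1
    omega
  have hr : ∀ p : P.erase 2, ∃ r : ℕ, r.Coprime p ∧ sg r (p / 2) = T p := by
    intro p
    rcases Int.units_eq_one_or (T p) with h | h
    · exact ⟨1, Nat.coprime_one_left _, by rw [h, sg_one]⟩
    · obtain ⟨r, h1, h3⟩ := exists_sg_neg (p / 2) (by
        rw [hodd p p.2]; exact hP p (Finset.mem_erase.1 p.2).2)
      rw [hodd p p.2] at h1
      exact ⟨r, h1, by rw [h, h3]⟩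
  choose r hr1 hr2 using hr
  let a : ℕ → ℕ := fun p => if h : p ∈ P.erase 2 then r ⟨p, h⟩ else 2 * u.val + 1
  let s : ℕ → ℕ := fun p => if p = 2 then 8 else p
  have h8 : ∀ p ∈ P, p ≠ 2 → Nat.Coprime 8 p := by
    intro p hp h
    have : Nat.Coprime 2 p := (Nat.coprime_primes Nat.prime_two (hP p hp)).2 h.symm
    exact this.pow_left 3
  obtain ⟨j, hj⟩ := Nat.chineseRemainderOfFinset a s P
    (fun p hp => by
      simp only [s]
      split_ifs
      · norm_num
      · exact (hP p hp).ne_zero)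
    (fun p hp q hq hpq => by
      simp only [Function.onFun, s]
      by_cases e1 : p = 2 <;> by_cases e2 : q = 2
      · exact absurd (e1.trans e2.symm) hpq
      · rw [if_pos e1, if_neg e2]; exact h8 q hq e2
      · rw [if_neg e1, if_pos e2]; exact (h8 p hp e1).symm
      · rw [if_neg e1, if_neg e2]; exact (Nat.coprime_primes (hP p hp) (hP q hq)).2 hpq)
  have hj8 : j % 8 = 2 * u.val + 1 := by
    have := hj 2 h2
    simp only [a, s, if_true] at this
    rw [dif_neg (Finset.notMem_erase 2 P)] at this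
    have hu := u.2
    unfold Nat.ModEq at this
    omega
  have hjp : ∀ p : P.erase 2, j ≡ r p [MOD p] := by
    intro p
    have := hj p (Finset.mem_erase.1 p.2).2
    simp only [a, s] at this
    rwa [dif_pos p.2, if_neg (Finset.mem_erase.1 p.2).1] at this
  refine ⟨j, fun p hp => ?_, hj8, fun p => ?_⟩
  · by_cases e : p = 2
    · subst e
      rw [Nat.coprime_two_right]
      exact Nat.odd_iff.2 (by omega)
    · have h1 := hjp ⟨p, Finset.mem_erase.2 ⟨e, hp⟩⟩
      rw [Nat.Coprime, h1.gcd_eq]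
      exact hr1 _
  · rw [← hr2 p]
    apply sg_congr
    rw [hodd p p.2]
    exact hjp p

lemma primeFactors_card_GH (n : ℕ) (hn : 2 ≤ n) :
    (32 * n.factorial).primeFactors = (Finset.range (n + 1)).filter Nat.Prime := by
  ext p
  rw [Nat.mem_primeFactors, Finset.mem_filter, Finset.mem_range]
  constructor
  · rintro ⟨hp, hd, -⟩
    refine ⟨?_, hp⟩
    rcases (Nat.Prime.dvd_mul hp).1 hd with h | h
    · have h1 : p ∣ 2 ^ 5 := h
      have := Nat.le_of_dvd (by norm_num) (hp.dvd_of_dvd_pow h1)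
      omega
    · have := (hp.dvd_factorial).1 h
      omega
  · rintro ⟨h, hp⟩
    exact ⟨hp, ((hp.dvd_factorial).2 (by omega)).mul_left _,
      Nat.mul_ne_zero (by norm_num) (Nat.factorial_ne_zero n)⟩

theorem GH_usr (α : Type) [Fintype α] [DecidableEq α] :
    ∃ m : ℤ, IsCoprime m (Nat.card (GH α) : ℤ) ∧ IsMSemiRational (GH α) m := by
  let n : ℕ := Nat.card (Perm α × HH)
  have hn : 0 < n := Nat.card_pos
  let L : ℕ := ordCompl[2] n
  have hL : ¬ 2 ∣ L := Nat.not_dvd_ordCompl Nat.prime_two hn.ne'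
  have hL' : ∀ d, d ∣ n → ¬ 2 ∣ d → d ∣ L := fun d h1 h2 =>
    Nat.dvd_ordCompl_of_dvd_not_dvd h1 h2
  have hcop : (1 + 2 * (L * L)).Coprime n := by
    apply Nat.coprime_of_dvd
    intro p hp h1 h2
    by_cases h3 : 2 ∣ p
    · have := h3.trans h1
      omega
    · have h4 := ((hL' p h2 h3).mul_left L).mul_left 2
      have := (Nat.dvd_add_left h4).1 h1
      exact hp.one_lt.ne' (Nat.dvd_one.1 this)
  have hσ : ∀ σ : Perm α, orderOf σ ∣ n := by
    intro σ
    simp only [n]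
    rw [Nat.card_prod]
    exact (orderOf_dvd_natCard σ).mul_right _
  refine ⟨((1 + 2 * (L * L) : ℕ) : ℤ), ?_, GH_semi _ ?_ (fun σ => hcop.coprime_dvd_right (hσ σ))
    fun σ h => ?_⟩
  · rw [Nat.isCoprime_iff_coprime]
    exact hcop.coprime_dvd_right (Subgroup.card_subgroup_dvd_card (GH α))
  · have : L % 4 = 1 ∨ L % 4 = 3 := by omega
    have h2 : L * L % 4 = 1 := by
      rw [Nat.mul_mod]
      rcases this with h | h <;> rw [h]
    omega
  · obtain ⟨t, ht⟩ := ((hL' _ (hσ σ) h).mul_right L).mul_left 2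
    rw [ht, pow_add, pow_one, pow_mul, pow_orderOf_eq_one, one_pow, mul_one]

theorem GH_lower (h : ℕ) (hh : 16 ≤ h) :
    2 ^ ((Nat.card (GH (Fin (2 * h)))).primeFactors.card + 1) ≤
      Module.finrank ℚ (charField (GH (Fin (2 * h)))) := by
  classical
  have : Nontrivial (Fin (2 * h)) := Fin.nontrivial_iff_two_le.2 (by omega)
  set N := Nat.card (GH (Fin (2 * h))) with hN
  set P := N.primeFactors with hPdef
  have hP : P = (Finset.range (2 * h + 1)).filter Nat.Prime := by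
    rw [hPdef, hN, card_GH, Fintype.card_fin, primeFactors_card_GH _ (by omega)]
  have hPp : ∀ p ∈ P, p.Prime := fun p hp => Nat.prime_of_mem_primeFactors hp
  have h2 : 2 ∈ P := by
    rw [hP, Finset.mem_filter, Finset.mem_range]
    exact ⟨by omega, Nat.prime_two⟩
  have hex := fun q : Fin 4 × (P.erase 2 → ℤˣ) => exists_exponent P hPp h2 q.1 q.2
  choose j hj1 hj2 hj3 using hex
  have hcop : ∀ q d, (∀ p, p.Prime → p ∣ d → p ∈ P) → (j q).Coprime d := by
    intro q d hd
    apply Nat.coprime_of_dvd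
    intro p hp h1 h3
    have := hj1 q p (hd p hp h3)
    exact hp.one_lt.ne' (Nat.eq_one_of_dvd_coprimes this h1 dvd_rfl)
  have hjN : ∀ q, (j q).Coprime N := fun q => hcop q N fun p hp h1 =>
    Nat.mem_primeFactors.2 ⟨hp, h1, Nat.card_pos.ne'⟩
  have hjd : ∀ q e, 2 * e + 1 ≤ 2 * h → (j q).Coprime (2 * e + 1) := fun q e he =>
    hcop q _ fun p hp h1 => by
      rw [hP, Finset.mem_filter, Finset.mem_range]
      have := Nat.le_of_dvd (by omega) h1
      exact ⟨by omega, hp⟩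
  have := le_finrank_charField (GH (Fin (2 * h))) N Nat.card_pos (fun x => pow_card_eq_one')
    (Fin 4 × (P.erase 2 → ℤˣ)) j hjN ?_
  · rw [Fintype.card_prod, Fintype.card_fin, Fintype.card_fun, Fintype.card_units_int,
      Fintype.card_coe, Finset.card_erase_of_mem h2] at this
    refine le_trans (le_of_eq ?_) this
    obtain ⟨k, hk⟩ : ∃ k, P.card = k + 1 :=
      ⟨P.card - 1, by have := Finset.card_pos.2 ⟨2, h2⟩; omega⟩
    rw [hk, Nat.add_sub_cancel]
    ring
  intro a b hab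
  by_contra hne
  push Not at hne
  apply hab
  have hlt : ∀ q, j q % 8 < 8 := fun q => Nat.mod_lt _ (by norm_num)
  obtain ⟨hκ, hf⟩ := signs_trivial h hh (fun e => sg (j a) e * sg (j b) e)
    (chi (j a % 8) * chi (j b % 8)) (by simp [sg_zero]) (by
      intro D hD
      obtain ⟨g, hg1, hg2⟩ := exists_split D (2 * h) hD
      have hle : ∀ e ∈ D, 2 * e + 1 ≤ 2 * h := fun e he => by
        rw [← hD]
        exact Finset.single_le_sum (f := fun e => 2 * e + 1) (fun _ _ => Nat.zero_le _) he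
      obtain ⟨c, k, h1, h3, h4⟩ := (isConj_GH_iff _ _).1
        (hne ⟨(g, tH), by rw [mem_GH, hg1]; rfl⟩)
      simp only [SubmonoidClass.coe_pow, Prod.pow_fst, Prod.pow_snd] at h3 h4
      rw [HH_pow_mod _ (j a), HH_pow_mod _ (j b)] at h4
      rw [← hg2 _ _ (fun e he => hjd a e (hle e he)) (fun e he => hjd b e (hle e he)) c h3, h1]
      exact tH_conj k ⟨_, hlt a⟩ ⟨_, hlt b⟩ (by have := hj2 a; simp only; omega) h4)
  obtain ⟨σ, hσ⟩ := sign_surjective (Fin (2 * h)) (-1)
  obtain ⟨c, k, -, -, h4⟩ := (isConj_GH_iff _ _).1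
    (hne ⟨(σ, uH), by rw [mem_GH, hσ]; rfl⟩)
  simp only [SubmonoidClass.coe_pow, Prod.pow_snd] at h4
  rw [HH_pow_mod _ (j a), HH_pow_mod _ (j b)] at h4
  have h5 := uH_conj k ⟨_, hlt a⟩ ⟨_, hlt b⟩ h4
  simp only at h5
  rw [hj2, hj2] at hκ h5
  refine Prod.ext ?_ (funext fun p => ?_)
  · have key : ∀ u v : Fin 4, chi (2 * u.val + 1) * chi (2 * v.val + 1) = 1 →
        (2 * u.val + 1) % 4 = (2 * v.val + 1) % 4 → u = v := by decide
    exact key _ _ hκ h5
  · have hp := (Finset.mem_erase.1 p.2).2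
    have hp1 := (Finset.mem_erase.1 p.2).1
    have hp2 := (hPp _ hp).eq_two_or_odd.resolve_left hp1
    have hp3 : (p : ℕ) < 2 * h + 1 := Finset.mem_range.1 (Finset.mem_filter.1 (hP.le hp)).1
    have h6 := hf (p / 2) (by omega)
    simp only [hj3] at h6
    revert h6
    generalize a.2 p = x
    generalize b.2 p = y
    revert x y
    decide

theorem exists_half (l : ℕ) (hl : 11 ≤ l) :
    ∃ h, 16 ≤ h ∧ ((Finset.range (2 * h + 1)).filter Nat.Prime).card = l := by
  obtain ⟨k, rfl⟩ : ∃ k, l = k + 1 := ⟨l - 1, by omega⟩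
  have hp : (Nat.nth Nat.Prime k).Prime := Nat.prime_nth_prime k
  have h31 : Nat.nth Nat.Prime 10 = 31 := by
    have h1 : Nat.count Nat.Prime 31 = 10 := by decide
    rw [← h1]
    exact Nat.nth_count (by norm_num)
  have hge : 31 ≤ Nat.nth Nat.Prime k := by
    rw [← h31]
    exact Nat.nth_monotone Nat.infinite_setOfPred_prime (by omega)
  have hodd := hp.eq_two_or_odd.resolve_left (by omega)
  refine ⟨(Nat.nth Nat.Prime k + 1) / 2, by omega, ?_⟩
  have e : 2 * ((Nat.nth Nat.Prime k + 1) / 2) + 1 = Nat.nth Nat.Prime k + 1 + 1 := by omega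
  have hnp : ¬ (Nat.nth Nat.Prime k + 1).Prime := fun h => by
    have := h.eq_two_or_odd
    omega
  rw [e, ← Nat.count_eq_card_filter_range, Nat.count_succ, if_neg hnp, add_zero,
    Nat.count_nth_succ_of_infinite Nat.infinite_setOfPred_prime]

theorem tent_lower (l : ℕ) (hl : 11 ≤ l) : ∃ (G : Type) (_ : Group G) (_ : Finite G),
    (∃ m : ℤ, IsCoprime m (Nat.card G : ℤ) ∧ IsMSemiRational G m) ∧
      (Nat.card G).primeFactors.card = l ∧ 2 ^ (l + 1) ≤ Module.finrank ℚ (charField G) := by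
  obtain ⟨h, hh, hc⟩ := exists_half l hl
  have : Nontrivial (Fin (2 * h)) := Fin.nontrivial_iff_two_le.2 (by omega)
  have hl' : (Nat.card (GH (Fin (2 * h)))).primeFactors.card = l := by
    rw [card_GH, Fintype.card_fin, primeFactors_card_GH _ (by omega), hc]
  refine ⟨GH (Fin (2 * h)), inferInstance, inferInstance, GH_usr _, hl', ?_⟩
  rw [← hl']
  exact GH_lower h hh

end Pool.Agent.P.MP_fc75c6_al
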