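import Mathlib

namespace Pool.Agent.P.MP_fc75c6_al

theorem upa_dvd {n : ℕ} {z : ℤ} (h : (z : ZMod n) ^ 2 = 1) : (n : ℤ) ∣ (z - 1) * (z + 1) := by
  rw [← ZMod.intCast_zmod_eq_zero_iff_dvd]
  push_cast
  linear_combination h

theorem upa_odd (p k : ℕ) (hp : p.Prime) (h2 : p ≠ 2) :
    {u : ZMod (p ^ k) | u ^ 2 = 1}.ncard ≤ 2 := by
  have hsub : {u : ZMod (p ^ k) | u ^ 2 = 1} ⊆ {1, -1} := by
    intro u hu
    obtain ⟨z, rfl⟩ := ZMod.intCast_surjective u
    have hd := upa_dvd hu
    have hp' : Prime (p : ℤ) := Nat.prime_iff_prime_int.1 hp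
    push_cast at hd
    by_cases h : (p : ℤ) ∣ z + 1
    · have h3 : ¬ (p : ℤ) ∣ z - 1 := by
        intro h4
        have h5 : (p : ℤ) ∣ 2 := by
          have := dvd_sub h h4
          rwa [show z + 1 - (z - 1) = 2 by ring] at this
        have h6 : p ∣ 2 := by exact_mod_cast h5
        exact h2 ((Nat.prime_dvd_prime_iff_eq hp Nat.prime_two).1 h6)
      have h7 := hp'.pow_dvd_of_dvd_mul_left k h3 hd
      have h8 := (ZMod.intCast_zmod_eq_zero_iff_dvd (z + 1) (p ^ k)).2 (by exact_mod_cast h7)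
      push_cast at h8
      exact Or.inr (eq_neg_of_add_eq_zero_left h8)
    · have h7 := hp'.pow_dvd_of_dvd_mul_right k h hd
      have h8 := (ZMod.intCast_zmod_eq_zero_iff_dvd (z - 1) (p ^ k)).2 (by exact_mod_cast h7)
      push_cast at h8
      exact Or.inl (sub_eq_zero.1 h8)
  refine (Set.ncard_le_ncard hsub (Set.toFinite _)).trans ?_
  exact (Set.ncard_insert_le _ _).trans (by simp)

theorem upa_half (j : ℕ) (y : ℤ) (h : (2 : ℤ) ^ (j + 1) ∣ 2 * y) :
    (y : ZMod (2 ^ (j + 1))) = 0 ∨ (y : ZMod (2 ^ (j + 1))) = 2 ^ j := by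
  have h0 : (2 : ZMod (2 ^ (j + 1))) ^ (j + 1) = 0 := by
    exact_mod_cast ZMod.natCast_self (2 ^ (j + 1))
  rw [pow_succ'] at h
  obtain ⟨c, rfl⟩ := (mul_dvd_mul_iff_left two_ne_zero).1 h
  rcases Int.even_or_odd' c with ⟨w, rfl | rfl⟩
  · left
    push_cast
    linear_combination (w : ZMod (2 ^ (j + 1))) * h0
  · right
    push_cast
    linear_combination (w : ZMod (2 ^ (j + 1))) * h0

theorem upa_two (k : ℕ) (hk : 0 < k) : {u : ZMod (2 ^ k) | u ^ 2 = 1}.ncard ≤ 4 := by
  obtain ⟨j, rfl⟩ : ∃ j, k = j + 1 := ⟨k - 1, by omega⟩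
  have hsub : {u : ZMod (2 ^ (j + 1)) | u ^ 2 = 1} ⊆ {1, 1 + 2 ^ j, -1, -1 + 2 ^ j} := by
    intro u hu
    obtain ⟨z, rfl⟩ := ZMod.intCast_surjective u
    have hd := upa_dvd hu
    push_cast at hd
    have hz : (2 : ℤ) ∣ (z - 1) * (z + 1) := (dvd_pow_self 2 (Nat.succ_ne_zero j)).trans hd
    obtain ⟨w, rfl⟩ : ∃ w, z = 2 * w + 1 := by
      rcases Int.prime_two.dvd_or_dvd hz with h | h <;> exact ⟨z / 2, by omega⟩
    by_cases h : (2 : ℤ) ∣ w
    · have h3 : ¬ (2 : ℤ) ∣ w + 1 := by omega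
      rw [show (2 * w + 1 - 1) * (2 * w + 1 + 1) = (2 * (2 * w)) * (w + 1) by ring] at hd
      rcases upa_half j _ (Int.prime_two.pow_dvd_of_dvd_mul_right _ h3 hd) with h4 | h4
      · left
        push_cast at h4 ⊢
        linear_combination h4
      · right; left
        push_cast at h4 ⊢
        linear_combination h4
    · rw [show (2 * w + 1 - 1) * (2 * w + 1 + 1) = (2 * (2 * (w + 1))) * w by ring] at hd
      rcases upa_half j _ (Int.prime_two.pow_dvd_of_dvd_mul_right _ h hd) with h4 | h4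
      · right; right; left
        push_cast at h4 ⊢
        linear_combination h4
      · right; right; right
        rw [Set.mem_singleton_iff]
        push_cast at h4 ⊢
        linear_combination h4
  refine (Set.ncard_le_ncard hsub (Set.toFinite _)).trans ?_
  refine (Set.ncard_insert_le _ _).trans (Nat.succ_le_succ ?_)
  refine (Set.ncard_insert_le _ _).trans (Nat.succ_le_succ ?_)
  exact (Set.ncard_insert_le _ _).trans (by simp)

theorem upa_mul (a b : ℕ) (ha : 0 < a) (hb : 0 < b) (h : a.Coprime b) :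
    {u : ZMod (a * b) | u ^ 2 = 1}.ncard ≤
      {u : ZMod a | u ^ 2 = 1}.ncard * {u : ZMod b | u ^ 2 = 1}.ncard := by
  have : NeZero a := ⟨ha.ne'⟩
  have : NeZero b := ⟨hb.ne'⟩
  rw [← Set.ncard_prod]
  refine Set.ncard_le_ncard_of_injOn (ZMod.chineseRemainder h) ?_
    (ZMod.chineseRemainder h).injective.injOn (Set.toFinite _)
  intro u hu
  have h1 : (ZMod.chineseRemainder h u) ^ 2 = 1 := by
    rw [← map_pow, show u ^ 2 = 1 from hu, map_one]
  exact ⟨congrArg Prod.fst h1, congrArg Prod.snd h1⟩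

theorem upa_all (N : ℕ) : 0 < N → {u : ZMod N | u ^ 2 = 1}.ncard ≤
    2 ^ N.primeFactors.card * (if 2 ∣ N then 2 else 1) := by
  induction N using Nat.recOnPosPrimePosCoprime with
  | prime_pow p k hp hk =>
    intro _
    rw [Nat.primeFactors_prime_pow hk.ne' hp, Finset.card_singleton]
    by_cases h2 : p = 2
    · subst h2
      rw [if_pos (dvd_pow_self 2 hk.ne')]
      exact upa_two k hk
    · refine (upa_odd p k hp h2).trans ?_
      split_ifs <;> norm_num
  | zero => intro h; omega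
  | one =>
    intro _
    simp
  | coprime a b ha hb hab iha ihb =>
    intro _
    refine (upa_mul a b (by omega) (by omega) hab).trans ?_
    refine (Nat.mul_le_mul (iha (by omega)) (ihb (by omega))).trans ?_
    rw [hab.primeFactors_mul, Finset.card_union_of_disjoint hab.disjoint_primeFactors, pow_add,
      mul_mul_mul_comm]
    refine Nat.mul_le_mul_left _ ?_
    by_cases h1 : 2 ∣ a
    · have h2 : ¬ 2 ∣ b := fun h2 => by
        have := Nat.dvd_gcd h1 h2
        rw [hab] at this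
        omega
      rw [if_pos h1, if_neg h2, if_pos (h1.mul_right b), mul_one]
    · by_cases h2 : 2 ∣ b
      · rw [if_neg h1, if_pos h2, if_pos (h2.mul_left a), one_mul]
      · rw [if_neg h1, if_neg h2]
        split_ifs <;> norm_num

/-- The squares have index at most `2 ^ (l + 1)` in the unit group of `ZMod N`,
`l` the number of primes dividing `N`. -/
theorem sq_index_le (N : ℕ) (hN : 0 < N) :
    (powMonoidHom 2 : (ZMod N)ˣ →* (ZMod N)ˣ).range.index ≤ 2 ^ (N.primeFactors.card + 1) := by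
  have : NeZero N := ⟨hN.ne'⟩
  rw [Subgroup.index_range]
  have h1 : Nat.card (powMonoidHom 2 : (ZMod N)ˣ →* (ZMod N)ˣ).ker ≤
      {u : ZMod N | u ^ 2 = 1}.ncard := by
    rw [← Nat.card_coe_set_eq]
    refine Nat.card_le_card_of_injective (fun u => ⟨((u.1 : (ZMod N)ˣ) : ZMod N), ?_⟩) ?_
    · have h2 : u.1 ^ 2 = 1 := u.2
      have h3 := congrArg Units.val h2
      simpa using h3
    · intro u v h
      exact Subtype.ext (Units.ext (congrArg Subtype.val h))
  refine h1.trans ((upa_all N hN).trans ?_)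
  rw [pow_succ]
  refine Nat.mul_le_mul_left _ ?_
  split_ifs <;> norm_num

end Pool.Agent.P.MP_fc75c6_al
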