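import Pool.Agent.P.MP_fc75c6_al.Rep

namespace Pool.Agent.P.MP_fc75c6_al

open Module

theorem upb_zpowers {G : Type} [Group G] [Finite G] (x : G) (t : ℕ)
    (ht : t.Coprime (Nat.card G)) : Subgroup.zpowers (x ^ t) = Subgroup.zpowers x := by
  refine le_antisymm (Subgroup.zpowers_le.2 (Subgroup.npow_mem_zpowers x t)) ?_
  rw [Subgroup.zpowers_le]
  obtain ⟨s, hs⟩ := exists_pow_eq_self_of_coprime (x := x)
    (ht.coprime_dvd_right (orderOf_dvd_natCard x))
  nth_rewrite 2 [← hs]
  exact Subgroup.npow_mem_zpowers _ s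

/-- In an `m`-semi-rational group every element is conjugate to its power by a square. -/
theorem isConj_pow_sq (G : Type) [Group G] [Finite G] (m : ℤ) (h : IsMSemiRational G m)
    (x : G) (t : ℕ) (ht : t.Coprime (Nat.card G)) : IsConj x (x ^ (t ^ 2)) := by
  let y : G := (powCoprime ht.symm).symm x
  have hy : y ^ t = x := (powCoprime ht.symm).apply_symm_apply x
  have h1 := upb_zpowers x t ht
  have h2 : Subgroup.zpowers y = Subgroup.zpowers x := by rw [← upb_zpowers y t ht, hy]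
  rw [sq, pow_mul]
  rcases h x (x ^ t) h1 with h3 | h3
  · exact h3.trans (h3.pow t)
  rcases h x y h2 with h4 | h4
  · have h5 := h4.pow t
    rw [hy] at h5
    exact h5.symm.trans (h5.symm.pow t)
  · have h5 := (h4.symm.trans h3).pow t
    rwa [hy] at h5

theorem finrank_charField_le_index (G : Type) [Group G] [Finite G] (N : ℕ) (hN : 0 < N)
    (hexp : ∀ g : G, g ^ N = 1)
    (hsq : ∀ (x : G) (t : ℕ), t.Coprime N → IsConj x (x ^ (t ^ 2))) :
    finrank ℚ (charField G) ≤ (powMonoidHom 2 : (ZMod N)ˣ →* (ZMod N)ˣ).range.index := by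
  classical
  have := Fintype.ofFinite G
  have : NeZero N := ⟨hN.ne'⟩
  let ζ : ℂ := Complex.exp (2 * Real.pi * Complex.I / N)
  have hζ : IsPrimitiveRoot ζ N := Complex.isPrimitiveRoot_exp N hN.ne'
  have hint : IsIntegral ℚ ζ := (hζ.isIntegral hN).tower_top
  let L : IntermediateField ℚ ℂ := IntermediateField.adjoin ℚ {ζ}
  have hζL : ζ ∈ L := IntermediateField.mem_adjoin_simple_self ℚ ζ
  have hchar : ∀ (V : FDRep ℂ G) (x : G), ∃ m : ℕ → ℕ, ∀ i : ℕ, V.character (x ^ i) =
      ∑ a ∈ Finset.range N, (m a : ℂ) * (ζ ^ a) ^ i := by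
    intro V x
    obtain ⟨m, hm⟩ := exists_trace_pow (V.ρ x) N hN (by rw [← map_pow, hexp, map_one]) ζ hζ
    refine ⟨m, fun i => ?_⟩
    rw [← hm, ← map_pow]
    rfl
  have hle : charField G ≤ L := by
    unfold charField
    rw [IntermediateField.adjoin_le_iff]
    rintro z ⟨V, -, x, rfl⟩
    obtain ⟨m, hm⟩ := hchar V x
    have := hm 1
    rw [pow_one] at this
    rw [this]
    exact L.sum_mem fun a _ => L.mul_mem (natCast_mem L _) (pow_mem (pow_mem hζL _) _)
  have : FiniteDimensional ℚ L := IntermediateField.adjoin.finiteDimensional hint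
  have : FiniteDimensional ℚ (charField G) :=
    FiniteDimensional.of_injective (IntermediateField.inclusion hle).toLinearMap
      (IntermediateField.inclusion_injective hle)
  let incl : charField G →+* L := (IntermediateField.inclusion hle).toRingHom
  have hext : ∀ ψ : charField G →ₐ[ℚ] ℂ, ∃ φ : L →+* ℂ, ∀ z, φ (incl z) = ψ z := by
    intro ψ
    let _ : Algebra (charField G) L := incl.toAlgebra
    have : IsScalarTower ℚ (charField G) L :=
      IsScalarTower.of_algebraMap_eq' (Subsingleton.elim _ _)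
    have : Algebra.IsAlgebraic (charField G) L :=
      Algebra.IsAlgebraic.tower_top (K := ℚ) (charField G)
    obtain ⟨φ, hφ⟩ := IsAlgClosed.surjective_domRestrict_of_isAlgebraic (K := ℚ)
      (L := charField G) (M := ℂ) (E := L) ψ
    exact ⟨φ.toRingHom, fun z => by rw [← hφ]; rfl⟩
  have hj : ∀ ψ : charField G →ₐ[ℚ] ℂ, ∃ j : ℕ, j.Coprime N ∧
      ∀ (V : FDRep ℂ G) (x : G) (hx : V.character x ∈ charField G),
        ψ ⟨V.character x, hx⟩ = V.character (x ^ j) := by
    intro ψ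
    obtain ⟨φ, hφ⟩ := hext ψ
    have h1 : IsPrimitiveRoot (⟨ζ, hζL⟩ : L) N :=
      IsPrimitiveRoot.of_map_of_injective (f := L.subtype) hζ Subtype.val_injective
    have h2 : IsPrimitiveRoot (φ ⟨ζ, hζL⟩) N := h1.map_of_injective φ.injective
    obtain ⟨j, -, hjN, hj⟩ := (hζ.isPrimitiveRoot_iff).1 h2
    refine ⟨j, hjN, fun V x hx => ?_⟩
    obtain ⟨m, hm⟩ := hchar V x
    have e : incl ⟨V.character x, hx⟩ =
        ∑ b ∈ Finset.range N, (m b : L) * (⟨ζ, hζL⟩ : L) ^ b := by
      apply Subtype.ext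
      have := hm 1
      rw [pow_one] at this
      change V.character x = _
      rw [this]
      push_cast
      simp
    rw [← hφ, e, map_sum, hm]
    refine Finset.sum_congr rfl fun b _ => ?_
    rw [map_mul, map_natCast, map_pow, ← hj, ← pow_mul, ← pow_mul, mul_comm j]
  choose j hjN hj using hj
  rw [← AlgHom.card ℚ (charField G) ℂ, Subgroup.index, ← Nat.card_eq_fintype_card]
  refine Nat.card_le_card_of_injective
    (fun ψ => QuotientGroup.mk (ZMod.unitOfCoprime (j ψ) (hjN ψ))) ?_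
  intro ψ ψ' hψ
  obtain ⟨u, hu⟩ := QuotientGroup.eq.1 hψ
  have h1 : ZMod.unitOfCoprime (j ψ') (hjN ψ') = ZMod.unitOfCoprime (j ψ) (hjN ψ) * u ^ 2 := by
    rw [show u ^ 2 = _ from hu, mul_inv_cancel_left]
  have h2 : j ψ' ≡ j ψ * (u : ZMod N).val ^ 2 [MOD N] := by
    rw [← ZMod.natCast_eq_natCast_iff]
    have h3 := congrArg Units.val h1
    simpa using h3
  refine IntermediateField.adjoin_algHom_ext ℚ ?_
  rintro z ⟨V, hV, x, rfl⟩
  have h4 : x ^ j ψ' = (x ^ j ψ) ^ ((u : ZMod N).val ^ 2) := by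
    rw [← pow_mul, pow_eq_pow_iff_modEq]
    exact h2.of_dvd (orderOf_dvd_of_pow_eq_one (hexp x))
  obtain ⟨c, hc⟩ := isConj_iff.1 (hsq (x ^ j ψ) _ (ZMod.val_coe_unit_coprime u))
  refine (hj ψ V x _).trans (Eq.trans ?_ (hj ψ' V x _).symm)
  rw [h4, ← hc, FDRep.char_conj]

end Pool.Agent.P.MP_fc75c6_al
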