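import Pool.Agent.P.MP_fc75c6_al.TS4
import Pool.Agent.P.MP_fc75c6_al.TSUpA
import Pool.Agent.P.MP_fc75c6_al.TSUpB

namespace Pool.Agent.P.MP_fc75c6_al

theorem tent_sharp (l : ℕ) (hl : 11 ≤ l) : ∃ (G : Type) (_ : Group G) (_ : Finite G),
    (∃ m : ℤ, IsCoprime m (Nat.card G : ℤ) ∧ IsMSemiRational G m) ∧
      (Nat.card G).primeFactors.card = l ∧ Module.finrank ℚ (charField G) = 2 ^ (l + 1) := by
  obtain ⟨G, _, _, ⟨m, hm1, hm2⟩, h1, h2⟩ := tent_lower l hl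
  refine ⟨G, inferInstance, inferInstance, ⟨m, hm1, hm2⟩, h1, le_antisymm ?_ h2⟩
  rw [← h1]
  exact (finrank_charField_le_index G (Nat.card G) Nat.card_pos (fun _ => pow_card_eq_one')
    (isConj_pow_sq G m hm2)).trans (sq_index_le _ Nat.card_pos)

end Pool.Agent.P.MP_fc75c6_al
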