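import Pool.Agent.P.MP_fc75c6_al.Main

open Pool.Agent.P.MP_fc75c6_al

/-- The weaker form first handed in; it is an instance of the sharp form. -/
theorem Pool.Agent.P.MP_fc75c6_al.VariantUnbounded :
    ∀ c : ℕ, ∃ (G : Type) (_ : Group G) (_ : Finite G),
      (∃ m : ℤ, IsCoprime m (Nat.card G : ℤ) ∧ IsMSemiRational G m) ∧
        c < Module.finrank ℚ (charField G) :=
  Pool.Agent.P.MP_fc75c6_al.main
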